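import Pool.Agent.W603.LV.Blk2

/-! Heights of roots and of values of polynomials. -/

set_option autoImplicit false

open FF MvPolynomial

namespace Pool.Agent.W603.LV

universe u v w

variable {k : Type u} [Field k] {K : Type w} [Field K] [Algebra k K] [CharZero k] [IsFF k K]

omit [CharZero k] [IsFF k K] in
theorem hgt_zero : hgt k (0 : K) = 0 := by
  unfold hgt
  have : (fun P : Place k K => max (-P.ord (0 : K)) 0) = fun _ => 0 := by
    funext P; rw [P.ord_zero]; rfl
  rw [this, finsum_zero]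


omit [CharZero k] [IsFF k K] in
/-- pole order of the value of a polynomial -/
theorem ge_mvpoly {ρ : Type*} [Fintype ρ] (P : Place k K) (r : ρ → K) (m : ρ → ℕ)
    (hm : ∀ a, Ge P (-(m a : ℤ)) (r a)) (c : MvPolynomial ρ k) :
    Ge P (-((c.totalDegree * ∑ a, m a : ℕ) : ℤ)) (aeval r c) := by
  rw [aeval_def, eval₂_eq']
  refine Ge.sum _ _ fun α hα => ?_
  have h1 := (Ge.const (P := P) (c.coeff α)).mul
    (Ge.prod Finset.univ (fun a => r a ^ α a) (fun a => α a * (-(m a : ℤ)))
      (fun a _ => (hm a).pow (α a)))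
  refine h1.mono ?_
  have h2 : ∀ a, α a ≤ c.totalDegree := by
    intro a
    refine le_trans ?_ (le_totalDegree hα)
    rw [Finsupp.sum_fintype _ _ (by simp)]
    exact Finset.single_le_sum (f := fun a => α a) (fun _ _ => Nat.zero_le _) (Finset.mem_univ a)
  have h3 : ∑ a, α a * m a ≤ c.totalDegree * ∑ a, m a := by
    rw [Finset.mul_sum]
    exact Finset.sum_le_sum fun a _ => Nat.mul_le_mul_right _ (h2 a)
  have h4 : (0 : ℤ) + ∑ a, (α a : ℤ) * (-(m a : ℤ)) = -((∑ a, α a * m a : ℕ) : ℤ) := by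
    push_cast
    rw [zero_add, ← Finset.sum_neg_distrib]
    exact Finset.sum_congr rfl fun a _ => by ring
  rw [h4]
  have h5 : ((∑ a, α a * m a : ℕ) : ℤ) ≤ ((c.totalDegree * ∑ a, m a : ℕ) : ℤ) := by
    exact_mod_cast h3
  omega

theorem hgt_mvpoly {ρ : Type*} [Fintype ρ] (r : ρ → K) (c : MvPolynomial ρ k) :
    hgt k (aeval r c) ≤ c.totalDegree * ∑ a, hgt k (r a) := by
  classical
  obtain ⟨T, hT⟩ := exists_supp (k := k) (Finset.univ : Finset (Option ρ))
    (fun a => Option.elim a (aeval r c) r)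
  have h0 : ∀ P : Place k K, P.ord (aeval r c) ≠ 0 → P ∈ T := fun P hP =>
    hT none (Finset.mem_univ _) P hP
  have h1 : ∀ a, ∀ P : Place k K, P.ord (r a) ≠ 0 → P ∈ T := fun a P hP =>
    hT (some a) (Finset.mem_univ _) P hP
  rw [hgt_finset _ T h0, Finset.sum_congr rfl fun a _ => hgt_finset (r a) T (h1 a),
    Finset.sum_comm, Finset.mul_sum]
  refine Finset.sum_le_sum fun P _ => ?_
  have h2 := ge_mvpoly P r (fun a => (-P.ord (r a)).toNat) (fun a => Or.inr (by omega)) c
  have h3 : ∀ a, max (-P.ord (r a)) 0 = ((-P.ord (r a)).toNat : ℤ) := fun a => by omega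
  rw [Finset.sum_congr rfl fun a _ => h3 a]
  have h4 : (0 : ℤ) ≤ ((c.totalDegree * ∑ a, (-P.ord (r a)).toNat : ℕ) : ℤ) := by positivity
  have h5 : ((c.totalDegree * ∑ a, (-P.ord (r a)).toNat : ℕ) : ℤ) =
      c.totalDegree * ∑ a, ((-P.ord (r a)).toNat : ℤ) := by push_cast; rfl
  rw [← h5]
  rcases h2 with h2 | h2
  · rw [h2, P.ord_zero]; simpa using h4
  · apply max_le _ h4
    omega

variable [IsAlgClosed k]

/-- height of a root of a polynomial -/
theorem hgt_root {D : ℕ} (e : ℕ → K) (heD : e D ≠ 0) (z : K)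
    (hz : ∑ d ∈ Finset.range (D + 1), e d * z ^ d = 0) :
    hgt k z ≤ hgt k (e D) + ∑ d ∈ Finset.range D, hgt k (e d) := by
  classical
  obtain ⟨T, hT⟩ := exists_supp (k := k) (Finset.range (D + 2)) (fun d => if d = D + 1 then z else e d)
  have h0 : ∀ P : Place k K, P.ord z ≠ 0 → P ∈ T := fun P hP =>
    hT (D + 1) (Finset.mem_range.2 (by omega)) P (by simpa using hP)
  have h1 : ∀ d, d ≤ D → ∀ P : Place k K, P.ord (e d) ≠ 0 → P ∈ T := fun d hd P hP =>
    hT d (Finset.mem_range.2 (by omega)) P (by rw [if_neg (by omega)]; exact hP)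
  rw [← hgt_inv (e D), hgt_finset _ T h0, hgt_finset (e D)⁻¹ T (fun P hP => h1 D le_rfl P (by
    rw [P.ord_inv] at hP; omega)), Finset.sum_congr rfl fun d hd =>
    hgt_finset (e d) T (h1 d (Finset.mem_range.1 hd).le), Finset.sum_comm,
    ← Finset.sum_add_distrib]
  refine Finset.sum_le_sum fun P _ => ?_
  have hnn : 0 ≤ ∑ d ∈ Finset.range D, max (-P.ord (e d)) 0 :=
    Finset.sum_nonneg fun _ _ => le_max_right _ _
  by_cases hz0 : 0 ≤ P.ord z
  · rw [max_eq_right (by omega)]
    exact add_nonneg (le_max_right _ _) hnn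
  · push Not at hz0
    have hzne : z ≠ 0 := by
      rintro rfl
      rw [P.ord_zero] at hz0; exact lt_irrefl _ hz0
    have hex : ∃ i ∈ Finset.range D, e i ≠ 0 ∧
        P.ord (e i * z ^ i) ≤ P.ord (e D * z ^ D) := by
      by_contra hcon
      push Not at hcon
      have h2 : Ge P (P.ord (e D * z ^ D) + 1) (∑ d ∈ Finset.range D, e d * z ^ d) := by
        refine Ge.sum _ _ fun i hi => ?_
        by_cases hei : e i = 0
        · left; rw [hei, zero_mul]
        · right
          have := hcon i hi hei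
          omega
      rw [Finset.sum_range_succ] at hz
      have h3 : e D * z ^ D = - ∑ d ∈ Finset.range D, e d * z ^ d := by
        linear_combination hz
      have h4 := h2.neg
      rw [← h3] at h4
      have := h4.resolve_left (mul_ne_zero heD (pow_ne_zero _ hzne))
      omega
    obtain ⟨i, hi, hei, hle⟩ := hex
    rw [P.ord_mul hei (pow_ne_zero _ hzne), P.ord_mul heD (pow_ne_zero _ hzne), P.ord_pow,
      P.ord_pow] at hle
    have hiD := Finset.mem_range.1 hi
    have h5 : max (-P.ord (e i)) 0 ≤ ∑ d ∈ Finset.range D, max (-P.ord (e d)) 0 :=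
      Finset.single_le_sum (f := fun d => max (-P.ord (e d)) 0) (fun _ _ => le_max_right _ _) hi
    rw [P.ord_inv, neg_neg, max_eq_left (by omega : (0 : ℤ) ≤ -P.ord z)]
    have h6 : -P.ord z ≤ P.ord (e D) - P.ord (e i) := by
      have h7 : (1 : ℤ) ≤ (D : ℤ) - i := by omega
      nlinarith
    have h8 := le_max_left (P.ord (e D)) 0
    have h9 := le_max_left (-P.ord (e i)) 0
    linarith

end Pool.Agent.W603.LV
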