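import Pool.Agent.W603.LV.Blk

/-! Decomposition of a generalised unit equation over a function field into blocks of small
height. -/

set_option autoImplicit false

open FF

namespace Pool.Agent.W603.LV

theorem tri_succ (m : ℕ) : tri (m + 1) = tri m + m := by
  unfold tri
  rw [Fin.sum_univ_castSucc]
  simp

theorem tri_mono {m s : ℕ} (h : m ≤ s) : tri m ≤ tri s :=
  monotone_nat_of_le_succ (f := tri) (fun n => by rw [tri_succ]; omega) h

theorem tri_nonneg (m : ℕ) : 0 ≤ tri m := Finset.sum_nonneg fun _ _ => by positivity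

variable {k K : Type*} [Field k] [Field K] [Algebra k K]

theorem hgt_congr {f g : K} (h : ∀ P : Place k K, P.ord f = P.ord g) : hgt k f = hgt k g := by
  unfold hgt
  exact finsum_congr fun P => by rw [h P]

theorem ord_smul (P : Place k K) {c : k} (hc : c ≠ 0) (f : K) : P.ord (c • f) = P.ord f := by
  by_cases hf : f = 0
  · rw [hf, smul_zero]
  rw [Algebra.smul_def, P.ord_mul (by rw [Ne, map_eq_zero]; exact hc) hf, P.ord_const hc, zero_add]

variable [CharZero k] [IsFF k K] [IsAlgClosed k]

/-- Blocks of a generalised unit equation. -/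
theorem blocks {J : Type*} [Fintype J] (S : Finset (Place k K)) {N s : ℕ}
    (hs : Fintype.card J ≤ s) (hN0 : 0 < N) (hN : (s - 1) ^ 2 ≤ N) (g : J → K)
    (hg0 : ∀ j, g j ≠ 0) (hrel : ∑ j, g j = 0)
    (hdvd : ∀ P ∉ S, ∀ i j, (N : ℤ) ∣ P.ord (g i) - P.ord (g j)) :
    ∃ R : J → J → Prop, Equivalence R ∧
      (∀ i j, R i j → hgt k (g i / g j) ≤ s * (N * tri s * max (canDeg k K + S.card) 0)) ∧
      ∀ (j0 : J) (A : Finset J), (∀ j, j ∈ A ↔ R j0 j) → ∑ j ∈ A, g j = 0 := by
  classical
  set χ : ℤ := max (canDeg k K + S.card) 0 with hχ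
  have hχ0 : 0 ≤ χ := le_max_right _ _
  set B : ℤ := N * tri s * χ with hB
  have hB0 : 0 ≤ B := mul_nonneg (mul_nonneg (by positivity) (tri_nonneg s)) hχ0
  let G : SimpleGraph J :=
    { Adj := fun i j => i ≠ j ∧ hgt k (g i / g j) ≤ B
      symm := by
        refine ⟨?_⟩
        rintro i j ⟨h1, h2⟩
        refine ⟨h1.symm, ?_⟩
        rw [← hgt_inv, inv_div]; exact h2
      loopless := ⟨fun i h => h.1 rfl⟩ }
  have hwalk : ∀ (i j : J) (p : G.Walk i j), hgt k (g i / g j) ≤ p.length * B := by
    intro i j p
    induction p with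
    | nil =>
      rw [div_self (hg0 _), hgt_one]; simp
    | cons h p ih =>
      rename_i u v w
      rw [SimpleGraph.Walk.length_cons]
      have h1 : g u / g w = (g u / g v) * (g v / g w) := by
        have := hg0 v
        have := hg0 w
        field_simp
      rw [h1]
      have h2 := hgt_mul (k := k) (div_ne_zero (hg0 u) (hg0 v)) (div_ne_zero (hg0 v) (hg0 w))
      have h3 := h.2
      push_cast
      linarith
  refine ⟨G.Reachable, G.reachable_is_equivalence, ?_, ?_⟩
  · intro i j hij
    obtain ⟨p, hp⟩ := hij.exists_isPath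
    have h1 := hwalk i j p
    have h2 : p.length ≤ s := by
      have := hp.length_lt
      omega
    refine h1.trans ?_
    have h3 : (p.length : ℤ) ≤ s := by exact_mod_cast h2
    exact mul_le_mul_of_nonneg_right h3 hB0
  · intro j0 A hA
    have key := class_sum (k := k) g G.Reachable G.reachable_is_equivalence (by
      intro m e he c hc hrel' hlin i j
      by_cases hij : e i = e j
      · rw [hij]
      apply SimpleGraph.Adj.reachable
      refine ⟨hij, ?_⟩
      have hm : m + 1 ≤ s := by
        have := Fintype.card_le_of_injective e he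
        simp only [Fintype.card_fin] at this
        omega
      have h1 := height_ineq S hN0 (m := m) ((Nat.pow_le_pow_left (by omega) 2).trans hN)
        (fun i => c i • g (e i)) (fun i => smul_ne_zero (hc i) (hg0 _)) hrel' hlin (by
          intro P hP i j
          rw [ord_smul P (hc i), ord_smul P (hc j)]
          exact hdvd P hP _ _) i j
      have h2 : hgt k (g (e i) / g (e j)) = hgt k (c i • g (e i) / c j • g (e j)) := by
        refine hgt_congr fun P => ?_
        rw [P.ord_div (hg0 _) (hg0 _), P.ord_div (smul_ne_zero (hc i) (hg0 _))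
          (smul_ne_zero (hc j) (hg0 _)), ord_smul P (hc i), ord_smul P (hc j)]
      rw [h2]
      refine h1.trans ?_
      have h3 : (N : ℤ) * tri m ≤ N * tri s :=
        mul_le_mul_of_nonneg_left (tri_mono (by omega)) (by positivity)
      have h4 : canDeg k K + S.card ≤ χ := le_max_left _ _
      have h5 : (0 : ℤ) ≤ N * tri m := mul_nonneg (by positivity) (tri_nonneg m)
      exact (mul_le_mul_of_nonneg_left h4 h5).trans (mul_le_mul_of_nonneg_right h3 hχ0))
      (Finset.univ.filter fun j => (fun _ : J => (1 : k)) j ≠ 0).card (fun _ => 1) le_rfl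
      (by simpa using hrel) j0
    simp only [one_smul] at key
    rw [← key]
    exact Finset.sum_congr (by ext j; simp [hA]) (fun _ _ => rfl)

end Pool.Agent.W603.LV
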