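import Pool.Agent.W603.LV.Defs
import Pool.Agent.W603.LV.Blk2

/-! Specialisation of function field points, degrees of morphisms. -/

set_option autoImplicit false

open FF MvPolynomial

namespace Pool.Agent.W603.LV

universe u v w

variable {k : Type u} [Field k] {n : ℕ} {ι : Type v} {K : Type w} [Field K] [Algebra k K]

theorem ge_mvaeval (P : Place k K) {f : Fin n → K} (hf : ∀ j, Ge P 0 (f j))
    (H : MvPolynomial (Fin n) k) : Ge P 0 (aeval f H) := by
  induction H using MvPolynomial.induction_on with
  | C a => rw [aeval_C]; exact Ge.const a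
  | add p q hp hq => rw [map_add]; exact hp.add hq
  | mul_X p j hp => rw [map_mul, aeval_X]; simpa using hp.mul (hf j)

theorem red_mvaeval (P : Place k K) {f : Fin n → K} (hf : ∀ j, Ge P 0 (f j)) {c : Fin n → k}
    (hc : ∀ j, Ge P 1 (f j - algebraMap k K (c j))) (H : MvPolynomial (Fin n) k) :
    Ge P 1 (aeval f H - algebraMap k K (eval c H)) := by
  induction H using MvPolynomial.induction_on with
  | C a => rw [aeval_C, eval_C, sub_self]; exact Ge.zero
  | add p q hp hq =>
    rw [map_add, map_add, map_add, add_sub_add_comm]; exact hp.add hq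
  | mul_X p j hp =>
    rw [map_mul, aeval_X, map_mul, eval_X, map_mul]
    have e : aeval f p * f j - algebraMap k K (eval c p) * algebraMap k K (c j) =
        aeval f p * (f j - algebraMap k K (c j)) +
          (aeval f p - algebraMap k K (eval c p)) * algebraMap k K (c j) := by ring
    rw [e]
    refine Ge.add ?_ ?_
    · simpa using (ge_mvaeval P hf p).mul (hc j)
    · simpa using hp.mul (Ge.const (P := P) (c j))

theorem const_zero (P : Place k K) {c : k} (h : Ge P 1 (algebraMap k K c)) : c = 0 := by
  by_contra hc
  rcases h with h | h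
  · exact hc ((map_eq_zero _).1 h)
  · rw [P.ord_const hc] at h; omega

variable [CharZero k] [IsFF k K] [IsAlgClosed k]

omit [IsAlgClosed k] in
theorem exists_place_not_mem (T : Finset (Place k K)) : ∃ P : Place k K, P ∉ T := by
  classical
  obtain ⟨t, ht⟩ := IsFF.exists_transcendental (k := k) (K := K)
  have hzero : ∀ c : k, ∃ P : Place k K, 0 < P.ord (t - algebraMap k K c) := by
    intro c
    have htc : Transcendental k (t - algebraMap k K c) := by
      intro h
      apply ht
      have := h.add (isAlgebraic_algebraMap (A := K) c)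
      simpa using this
    obtain ⟨S, hS, -, hS2⟩ := zeros (k := k) htc
    have h2 := IsFF.finite htc
    have h3 : 0 < Module.finrank (IntermediateField.adjoin k {t - algebraMap k K c}) K :=
      Module.finrank_pos
    rw [← hS2] at h3
    obtain ⟨w, hw, -⟩ := Finset.exists_ne_zero_of_sum_ne_zero h3.ne'
    exact ⟨w, (hS w).1 hw⟩
  choose p hp using hzero
  have hinj : Function.Injective p := by
    intro c c' hcc
    by_contra hne
    have h1 := hp c
    have h2 := hp c'
    rw [← hcc] at h2
    have h3 : Ge (p c) 1 (t - algebraMap k K c) := Or.inr h1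
    have h4 : Ge (p c) 1 (t - algebraMap k K c') := Or.inr h2
    have h5 : Ge (p c) 1 (algebraMap k K (c' - c)) := by
      have := h3.sub h4
      rw [map_sub]
      convert this using 1
      ring
    exact hne (sub_eq_zero.1 (const_zero _ h5)).symm
  have : Infinite (Place k K) := Infinite.of_injective p hinj
  exact Infinite.exists_notMem_finset T

/-- A polynomial that vanishes at all points of `X` vanishes at all function field points. -/
theorem specialize {U : Finset (Fin n)} {F : ι → MvPolynomial (Fin n) k} {S : Finset (Place k K)}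
    {f : Fin n → K} (hf : IsMap S U F f) {G : MvPolynomial (Fin n) k}
    (hG : ∀ x ∈ Pts U F, eval x G = 0) : aeval f G = 0 := by
  classical
  by_contra hne
  obtain ⟨P, hP⟩ := exists_place_not_mem (k := k) (K := K)
    (S ∪ (finite_support (k := k) (aeval f G)).toFinset)
  rw [Finset.mem_union, not_or] at hP
  obtain ⟨hPS, hPG⟩ := hP
  have hPG' : P.ord (aeval f G) = 0 := by
    by_contra h; exact hPG (by simpa using h)
  have hfP : ∀ j, Ge P 0 (f j) := fun j => Or.inr (hf.1 j P hPS)
  choose c hc using fun j => exists_const P (hfP j)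
  have hred := red_mvaeval P hfP hc
  have hcX : c ∈ Pts U F := by
    refine ⟨fun j hj h0 => ?_, fun i => ?_⟩
    · have h1 := hc j
      rw [h0, map_zero, sub_zero] at h1
      have h2 := h1.resolve_left (hf.2.1 j hj).1
      rw [(hf.2.1 j hj).2 P hPS] at h2
      omega
    · have h1 := hred (F i)
      rw [hf.2.2 i, zero_sub] at h1
      have h2 := h1.neg
      rw [neg_neg] at h2
      exact const_zero P h2
  have h1 := hred G
  rw [hG c hcX, map_zero, sub_zero] at h1
  have h2 := h1.resolve_left hne
  omega

omit [IsAlgClosed k] in
/-- the degree of a morphism is at most the sum of the heights of its coordinates -/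
theorem mapDeg_le (f : Fin n → K) : mapDeg k f ≤ ∑ j, hgt k (f j) := by
  classical
  obtain ⟨T, hT⟩ := exists_supp (k := k) Finset.univ f
  have h1 : ∀ j, ∀ P : Place k K, P.ord (f j) ≠ 0 → P ∈ T := fun j => hT j (Finset.mem_univ j)
  unfold mapDeg
  rw [finsum_eq_sum_of_support_subset (s := T), Finset.sum_congr rfl fun j _ =>
    hgt_finset (f j) T (h1 j), Finset.sum_comm]
  · refine Finset.sum_le_sum fun P _ => ?_
    have h2 : (Finset.univ.sup fun j => (-P.ord (f j)).toNat) ≤
        ∑ j, (-P.ord (f j)).toNat := by
      apply Finset.sup_le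
      intro j _
      exact Finset.single_le_sum (f := fun j => (-P.ord (f j)).toNat) (fun _ _ => Nat.zero_le _)
        (Finset.mem_univ j)
    have h3 : ∀ j, max (-P.ord (f j)) 0 = ((-P.ord (f j)).toNat : ℤ) := fun j => by omega
    rw [Finset.sum_congr rfl fun j _ => h3 j]
    exact_mod_cast h2
  · intro P hP
    by_contra hcon
    apply hP
    have h2 : ∀ j, P.ord (f j) = 0 := fun j => by
      by_contra h; exact hcon (h1 j P h)
    simp [h2]

end Pool.Agent.W603.LV
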