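import Pool.Agent.W603.LV.Ex

/-! Affine varieties in partial tori, morphisms from affine curves to them, degrees. -/

set_option autoImplicit false

open FF MvPolynomial

namespace Pool.Agent.W603.LV

universe u v w

variable {k : Type u} [Field k] {n : ℕ} {ι : Type v}

/-- The points of the closed subvariety `X` of `{x : x_j ≠ 0 for j ∈ U}`, an open subset of the
affine `n`-space, given by the equations `F i = 0`. -/
def Pts (U : Finset (Fin n)) (F : ι → MvPolynomial (Fin n) k) : Set (Fin n → k) :=
  {x | (∀ j ∈ U, x j ≠ 0) ∧ ∀ i, eval x (F i) = 0}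

/-- `X` is irreducible: it is not empty and it is not the union of two proper closed subsets. -/
def Irred (U : Finset (Fin n)) (F : ι → MvPolynomial (Fin n) k) : Prop :=
  (Pts U F).Nonempty ∧ ∀ G H : MvPolynomial (Fin n) k, (∀ x ∈ Pts U F, eval x (G * H) = 0) →
    (∀ x ∈ Pts U F, eval x G = 0) ∨ (∀ x ∈ Pts U F, eval x H = 0)

/-- The exponents of the variables `x_j`, `j ∉ U`, in the monomials of the finite set `T` are
multiples of some `N` that is at least the square of the number of these monomials minus one. -/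
def HighPowers (U : Finset (Fin n)) (T : Finset (Fin n →₀ ℕ)) : Prop :=
  ∃ N : ℕ, 0 < N ∧ (T.card - 1) ^ 2 ≤ N ∧ ∀ α ∈ T, ∀ j, j ∉ U → N ∣ α j

/-- The diagonal one-parameter group `t ↦ diag (t ^ b 0, …, t ^ b (n - 1))` preserves `X`. -/
def Preserves (U : Finset (Fin n)) (F : ι → MvPolynomial (Fin n) k) (b : Fin n → ℤ) : Prop :=
  ∀ x ∈ Pts U F, ∀ t : k, t ≠ 0 → (fun j => x j * t ^ b j) ∈ Pts U F

/-- The diagonal one-parameter group `t ↦ diag (t ^ b 0, …, t ^ b (n - 1))` fixes every point
of `X`. -/
def ActsTrivially (U : Finset (Fin n)) (F : ι → MvPolynomial (Fin n) k) (b : Fin n → ℤ) : Prop :=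
  ∀ x ∈ Pts U F, ∀ t : k, t ≠ 0 → (fun j => x j * t ^ b j) = x

variable {K : Type w} [Field K] [Algebra k K]

/-- `f` is a morphism to `X` from the affine curve whose function field is `K` and whose places at
infinity are those in `S`. -/
def IsMap (S : Finset (Place k K)) (U : Finset (Fin n)) (F : ι → MvPolynomial (Fin n) k)
    (f : Fin n → K) : Prop :=
  (∀ j, ∀ P : Place k K, P ∉ S → 0 ≤ P.ord (f j)) ∧
  (∀ j ∈ U, f j ≠ 0 ∧ ∀ P : Place k K, P ∉ S → P.ord (f j) = 0) ∧
  ∀ i, aeval f (F i) = 0

variable (k) in
/-- The degree of the morphism `(1 : f 0 : … : f (n - 1))` from the projective curve to the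
projective `n`-space. -/
noncomputable def mapDeg (f : Fin n → K) : ℤ :=
  ∑ᶠ P : Place k K, ((Finset.univ.sup fun j => (-P.ord (f j)).toNat : ℕ) : ℤ)

/-- The Euler characteristic `2 g - 2 + s` of the affine curve with function field `K` and places at
infinity `S`, where `2 g - 2` is the canonical degree. -/
noncomputable def euler (S : Finset (Place k K)) : ℤ := canDeg k K + S.card

end Pool.Agent.W603.LV
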