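import Pool.Agent.W603.LV.Hgt

/-! Decomposition of a generalised unit equation into blocks of small height. -/

set_option autoImplicit false

open FF

namespace Pool.Agent.W603.LV

section linear

variable {k V J : Type*} [Field k] [AddCommGroup V] [Module k V] [Fintype J]

open Classical in
/-- If the members of every circuit of `g` are equivalent, then the part of a linear relation in one
equivalence class is a relation. -/
theorem class_sum (g : J → V) (R : J → J → Prop) (hRe : Equivalence R)
    (hR : ∀ (m : ℕ) (e : Fin (m + 1) → J), Function.Injective e → ∀ c : Fin (m + 1) → k,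
      (∀ i, c i ≠ 0) → ∑ i, c i • g (e i) = 0 →
      LinearIndependent k (fun l => c ((Fin.last m).succAbove l) • g (e ((Fin.last m).succAbove l)))
      → ∀ i j, R (e i) (e j)) :
    ∀ (n : ℕ) (c : J → k), (Finset.univ.filter fun j => c j ≠ 0).card ≤ n →
      ∑ j, c j • g j = 0 → ∀ j0, ∑ j ∈ Finset.univ.filter (fun j => R j0 j), c j • g j = 0 := by
  intro n
  induction n with
  | zero =>
    intro c hc _ j0
    rw [Nat.le_zero, Finset.card_eq_zero, Finset.filter_eq_empty_iff] at hc
    refine Finset.sum_eq_zero fun j _ => ?_
    have : c j = 0 := by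
      by_contra h; exact hc (Finset.mem_univ j) h
    rw [this, zero_smul]
  | succ n ih =>
    intro c hc hrel j0
    by_cases hc0 : c = 0
    · rw [hc0]; simp
    -- a nonzero relation with minimal support inside the support of `c`
    have hne : {l : ℕ | ∃ d : J → k, d ≠ 0 ∧ (∀ j, c j = 0 → d j = 0) ∧ ∑ j, d j • g j = 0 ∧
        (Finset.univ.filter fun j => d j ≠ 0).card = l}.Nonempty :=
      ⟨_, c, hc0, fun _ h => h, hrel, rfl⟩
    obtain ⟨d, hd0, hdc, hdrel, hdcard⟩ := Nat.sInf_mem hne
    have hmin : ∀ d' : J → k, d' ≠ 0 → (∀ j, c j = 0 → d' j = 0) → ∑ j, d' j • g j = 0 →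
        (Finset.univ.filter fun j => d j ≠ 0).card ≤ (Finset.univ.filter fun j => d' j ≠ 0).card := by
      intro d' h1 h2 h3
      rw [hdcard]
      exact Nat.sInf_le ⟨d', h1, h2, h3, rfl⟩
    obtain ⟨j1, hj1⟩ := Function.ne_iff.1 hd0
    have hj1' : d j1 ≠ 0 := hj1
    -- enumerate the support
    set C : Finset J := Finset.univ.filter fun j => d j ≠ 0 with hC
    have hCj1 : j1 ∈ C := by simp [hC, hj1']
    obtain ⟨m, hm⟩ : ∃ m, C.card = m + 1 :=
      ⟨C.card - 1, by have := Finset.card_pos.2 ⟨j1, hCj1⟩; omega⟩
    let e' : Fin (m + 1) ≃ C := (Fintype.equivFinOfCardEq (by simpa using hm)).symm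
    let e : Fin (m + 1) → J := fun i => (e' i : J)
    have he : Function.Injective e := Subtype.val_injective.comp e'.injective
    have hCd : ∀ j ∈ C, d j ≠ 0 := fun j hj => by
      simpa [hC] using hj
    have heC : ∀ i, d (e i) ≠ 0 := fun i => hCd _ (e' i).2
    have hesurj : ∀ j, d j ≠ 0 → ∃ i, e i = j := by
      intro j hj
      refine ⟨e'.symm ⟨j, by simp [hC, hj]⟩, ?_⟩
      simp [e]
    have hsumC : ∀ (w : J → V), (∀ j, d j = 0 → w j = 0) → ∑ j, w j = ∑ i, w (e i) := by
      intro w hw
      rw [← Finset.sum_filter_add_sum_filter_not Finset.univ (fun j => d j ≠ 0),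
        Finset.sum_eq_zero (s := Finset.univ.filter fun j => ¬ d j ≠ 0), add_zero]
      · rw [← hC, ← Finset.sum_coe_sort, ← Equiv.sum_comp e']
      · intro j hj
        rw [Finset.mem_filter, not_not] at hj
        exact hw j hj.2
    have hrel' : ∑ i, d (e i) • g (e i) = 0 := by
      rw [← hdrel, hsumC (fun j => d j • g j) (fun j hj => by rw [hj, zero_smul])]
    have hRe' : ∀ i j, R (e i) (e j) := by
      refine hR m e he (fun i => d (e i)) heC hrel' ?_
      rw [Fintype.linearIndependent_iff]
      intro b hb
      by_contra hcon
      push Not at hcon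
      obtain ⟨l0, hl0⟩ := hcon
      -- a smaller relation
      let d' : J → k := fun j => if h : ∃ l : Fin m, e ((Fin.last m).succAbove l) = j then
        b h.choose * d j else 0
      have hd'e : ∀ l, d' (e ((Fin.last m).succAbove l)) = b l * d (e ((Fin.last m).succAbove l)) := by
        intro l
        have hex : ∃ l' : Fin m, e ((Fin.last m).succAbove l') = e ((Fin.last m).succAbove l) := ⟨l, rfl⟩
        simp only [d']
        rw [dif_pos hex]
        have := hex.choose_spec
        rw [Fin.succAbove_right_injective (he this)]
      have hd'last : d' (e (Fin.last m)) = 0 := by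
        simp only [d']
        rw [dif_neg]
        rintro ⟨l, hl⟩
        exact Fin.succAbove_ne _ _ (he hl)
      have hd'0 : ∀ j, d j = 0 → d' j = 0 := by
        intro j hj
        simp only [d']
        split_ifs with h
        · rw [hj, mul_zero]
        · rfl
      have h1 : d' ≠ 0 := by
        intro h0
        have := congrFun h0 (e ((Fin.last m).succAbove l0))
        rw [hd'e] at this
        exact mul_ne_zero hl0 (heC _) this
      have h2 : ∑ j, d' j • g j = 0 := by
        rw [hsumC (fun j => d' j • g j) (fun j hj => by rw [hd'0 j hj, zero_smul]),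
          Fin.sum_univ_succAbove _ (Fin.last m), hd'last, zero_smul, zero_add, ← hb]
        exact Finset.sum_congr rfl fun l _ => by rw [hd'e, smul_smul]
      have h3 := hmin d' h1 (fun j hj => hd'0 j (hdc j hj)) h2
      have h4 : (Finset.univ.filter fun j => d' j ≠ 0).card < C.card := by
        apply Finset.card_lt_card
        rw [Finset.ssubset_iff_of_subset]
        · exact ⟨e (Fin.last m), by simp [hC, heC], by simp [hd'last]⟩
        · intro j hj
          simp only [Finset.mem_filter, Finset.mem_univ, true_and, hC] at hj ⊢
          exact fun h => hj (hd'0 j h)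
      exact absurd h3 (by omega)
    -- class sums of `d`
    have hclass : ∑ j ∈ Finset.univ.filter (fun j => R j0 j), d j • g j = 0 := by
      by_cases hj : R j0 j1
      · have h1 : ∀ j, d j ≠ 0 → R j0 j := by
          intro j hj'
          obtain ⟨i, rfl⟩ := hesurj j hj'
          obtain ⟨i1, hi1⟩ := hesurj j1 hj1'
          refine hRe.trans hj ?_
          rw [← hi1]
          exact hRe' i1 i
        rw [← hdrel]
        apply Finset.sum_filter_of_ne
        intro j _ hne'
        apply h1
        intro h0
        exact hne' (by rw [h0, zero_smul])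
      · refine Finset.sum_eq_zero fun j hj' => ?_
        rw [Finset.mem_filter] at hj'
        by_contra hne'
        have h2 : d j ≠ 0 := by
          intro h0
          exact hne' (by rw [h0, zero_smul])
        obtain ⟨i, rfl⟩ := hesurj j h2
        obtain ⟨i1, hi1⟩ := hesurj j1 hj1'
        apply hj
        refine hRe.trans hj'.2 ?_
        rw [← hi1]
        exact hRe' i i1
    -- subtract
    have h5 := ih (fun j => c j - c j1 / d j1 * d j) (by
      have hcj1 : c j1 ≠ 0 := fun h => hj1' (hdc j1 h)
      have h6 : (Finset.univ.filter fun j => c j - c j1 / d j1 * d j ≠ 0).card <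
          (Finset.univ.filter fun j => c j ≠ 0).card := by
        apply Finset.card_lt_card
        rw [Finset.ssubset_iff_of_subset]
        · refine ⟨j1, by simp [hcj1], ?_⟩
          simp only [Finset.mem_filter, Finset.mem_univ, true_and, not_not]
          field_simp; simp
        · intro j hj
          simp only [Finset.mem_filter, Finset.mem_univ, true_and] at hj ⊢
          intro h0
          apply hj
          rw [h0, hdc j h0, mul_zero, sub_zero]
      omega) (by
      simp only [sub_smul, mul_smul, Finset.sum_sub_distrib, ← Finset.smul_sum]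
      rw [hrel, hdrel]; simp) j0
    simp only [sub_smul, mul_smul, Finset.sum_sub_distrib, ← Finset.smul_sum] at h5
    rw [hclass, smul_zero, sub_zero] at h5
    exact h5

end linear

end Pool.Agent.W603.LV
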