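import Pool.Agent.W603.LV.Main

/-! The Lang-Vojta degree bound for varieties given by few monomials that are high powers. -/

set_option autoImplicit false

open FF MvPolynomial

namespace Pool.Agent.W603.LV

universe u v w

/-- The degree bound, with a constant that depends only on the monomials. -/
theorem lang_vojta_unif {n : ℕ} {ι : Type v} [Finite ι] (U : Finset (Fin n))
    (T : ι → Finset (Fin n →₀ ℕ)) (hT : ∀ i, HighPowers U (T i)) :
    ∃ A : ℕ, ∀ (k : Type u) [Field k] [IsAlgClosed k] [CharZero k]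
      (F : ι → MvPolynomial (Fin n) k), (∀ i, (F i).support ⊆ T i) → Irred U F →
      (∀ b : Fin n → ℤ, Preserves U F b → ActsTrivially U F b) →
      ∃ G : MvPolynomial (Fin n) k, (∃ x ∈ Pts U F, eval x G ≠ 0) ∧
        ∀ (K : Type w) [Field K] [Algebra k K] [IsFF k K] (S : Finset (Place k K)) (f : Fin n → K),
          IsMap S U F f → aeval f G ≠ 0 → (∃ j, f j ∉ Set.range (algebraMap k K)) →
            mapDeg k f ≤ A * euler S := by
  classical
  have := Fintype.ofFinite ι
  choose N hN0 hN hdiv using hT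
  obtain ⟨B0, hB0⟩ : ∃ B0 : ℕ,
      B0 = ∑ i, (T i).card * (N i * (tri (T i).card).toNat) := ⟨_, rfl⟩
  set Δ : Finset (Fin n → ℤ) := Finset.univ.biUnion fun i => Finset.image₂
    (fun α β : Fin n →₀ ℕ => fun l => (α l : ℤ) - β l) (T i) (T i) with hΔ
  obtain ⟨C1, hC1⟩ : ∃ C1 : ℕ, C1 = ∑ J0 : Finset (Fin n), ∑ j, ∑ Q ∈ Δ.powerset, cst J0 Q j :=
    ⟨_, rfl⟩
  refine ⟨n * (C1 * B0), ?_⟩
  intro k _ _ _ F hFT hirr hno
  set J0 : Finset (Fin n) := Finset.univ.filter fun j => ∀ x ∈ Pts U F, x j = 0 with hJ0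
  refine ⟨exc U F, exc_ne hirr, ?_⟩
  intro K _ _ _ S f hf hG hnc
  set χ : ℤ := max (canDeg k K + S.card) 0 with hχ
  have hχ0 : 0 ≤ χ := le_max_right _ _
  -- coordinates
  have hf0 : ∀ j ∈ J0, f j = 0 := by
    intro j hj
    have h1 : ∀ x ∈ Pts U F, eval x (X j : MvPolynomial (Fin n) k) = 0 := by
      intro x hx
      rw [eval_X]
      exact (Finset.mem_filter.1 hj).2 x hx
    have h2 := specialize hf h1
    rwa [aeval_X] at h2
  have hf1 : ∀ j, j ∉ J0 → f j ≠ 0 := by
    intro j hj
    apply exc_coord hG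
    by_contra hcon
    push Not at hcon
    exact hj (Finset.mem_filter.2 ⟨Finset.mem_univ _, hcon⟩)
  set y : Fin n → K := fun l => if l ∈ J0 then 1 else f l with hy
  have hy0 : ∀ l, y l ≠ 0 := by
    intro l
    simp only [hy]
    split_ifs with h
    · exact one_ne_zero
    · exact hf1 l h
  have hblk := fun i => eq_blocks S U (F i) (T i) (hFT i) (hN0 i) (hN i) (hdiv i) J0 f hf0 hf1
    (fun j hj P hP => (hf.2.1 j hj).2 P hP) (hf.2.2 i) y (fun l => rfl)
  choose Qi hQs hQh hQb using hblk
  set Q : Finset (Fin n → ℤ) := Finset.univ.biUnion Qi with hQ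
  have hQΔ : Q ∈ Δ.powerset := by
    rw [Finset.mem_powerset]
    exact Finset.biUnion_mono fun i _ => hQs i
  have hQ' : ∀ i, ∀ q ∈ Qi i, q ∈ Q := fun i q hq =>
    Finset.mem_biUnion.2 ⟨i, Finset.mem_univ _, hq⟩
  have hQB : ∀ q ∈ Q, hgt k (mon y q) ≤ B0 * χ := by
    intro q hq
    obtain ⟨i, -, hqi⟩ := Finset.mem_biUnion.1 hq
    refine (hQh i q hqi).trans ?_
    have h1 : (((T i).card * (N i * (tri (T i).card).toNat) : ℕ) : ℤ) ≤ B0 := by
      rw [hB0]
      exact_mod_cast Finset.single_le_sum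
        (f := fun i => (T i).card * (N i * (tri (T i).card).toNat))
        (fun _ _ => Nat.zero_le _) (Finset.mem_univ i)
    have h2 := mul_le_mul_of_nonneg_right h1 hχ0
    refine le_trans (le_of_eq ?_) h2
    rw [Nat.cast_mul, Nat.cast_mul, Int.toNat_of_nonneg (tri_nonneg _), hχ]
    ring
  -- each coordinate has small height
  have hcoord : ∀ j, hgt k (f j) ≤ (C1 * B0 : ℕ) * χ := by
    intro j
    by_cases hj : j ∈ J0
    · rw [hf0 j hj]
      have h1 : hgt k (0 : K) = 0 := by
        rw [hgt_finset (k := k) (0 : K) ∅ (fun P h => absurd P.ord_zero h)]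
        rfl
      rw [h1]
      exact mul_nonneg (Nat.cast_nonneg _) hχ0
    · rcases dich J0 Q j with ⟨d, c, hd, hc⟩ | ⟨b, hbj, hb0, hbQ⟩
      · have h1 := hgt_le_cst (k := k) hj ⟨c, d, hd, hc⟩ hy0
          (fun l hl => by simp only [hy, if_pos hl]) hQB
        have h2 : y j = f j := by simp only [hy, if_neg hj]
        rw [h2] at h1
        refine h1.trans ?_
        have h3 : cst J0 Q j ≤ C1 := by
          rw [hC1]
          refine le_trans ?_ (Finset.single_le_sum
            (f := fun J0 : Finset (Fin n) => ∑ j, ∑ Q ∈ Δ.powerset, cst J0 Q j)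
            (fun _ _ => Nat.zero_le _) (Finset.mem_univ J0))
          refine le_trans ?_ (Finset.single_le_sum
            (f := fun j => ∑ Q ∈ Δ.powerset, cst J0 Q j) (fun _ _ => Nat.zero_le _)
            (Finset.mem_univ j))
          exact Finset.single_le_sum (f := fun Q => cst J0 Q j) (fun _ _ => Nat.zero_le _) hQΔ
        have h4 : (cst J0 Q j : ℤ) ≤ C1 := by exact_mod_cast h3
        have h5 : (0 : ℤ) ≤ B0 * χ := mul_nonneg (Nat.cast_nonneg _) hχ0
        have h6 := mul_le_mul_of_nonneg_right h4 h5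
        refine h6.trans (le_of_eq ?_)
        push_cast; ring
      · exfalso
        have h1 : Preserves U F b := preserves_of hG b fun i v =>
          hQb i b (fun q hq => hbQ q (hQ' i q hq)) v
        have h2 := hno b h1
        have h3 : ∃ x ∈ Pts U F, x j ≠ 0 := by
          by_contra hcon
          push Not at hcon
          exact hj (Finset.mem_filter.2 ⟨Finset.mem_univ _, hcon⟩)
        obtain ⟨x, hx, hxj⟩ := h3
        have h4 := congrFun (h2 x hx 2 two_ne_zero) j
        have h5 : (2 : k) ^ b j = 1 := by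
          apply mul_left_cancel₀ hxj
          rw [h4, mul_one]
        exact hbj (zpow_two_eq h5)
  -- positivity of the Euler characteristic
  obtain ⟨j, hj⟩ := hnc
  have hpos : 0 < hgt k (f j) := by
    by_contra hcon
    push Not at hcon
    obtain ⟨c, hc⟩ := const_of_hgt hcon
    exact hj ⟨c, hc.symm⟩
  have hχpos : 0 < χ := by
    rcases hχ0.lt_or_eq with h | h
    · exact h
    · have := hcoord j
      rw [← h, mul_zero] at this
      omega
  have hχe : χ = euler S := by
    unfold euler
    rw [hχ]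
    apply max_eq_left
    by_contra hcon
    push Not at hcon
    rw [hχ, max_eq_right hcon.le] at hχpos
    exact lt_irrefl _ hχpos
  rw [← hχe]
  refine (mapDeg_le f).trans ?_
  refine (Finset.sum_le_sum fun j _ => hcoord j).trans ?_
  rw [Finset.sum_const, nsmul_eq_mul, Finset.card_univ, Fintype.card_fin]
  push_cast
  exact le_of_eq (by ring)

end Pool.Agent.W603.LV
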