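import Mathlib

/-! Linear algebra over the integers: a unit vector is, up to a multiple, an integral combination of
given vectors, or some integral functional separates it from them. -/

set_option autoImplicit false

namespace Pool.Agent.W603.LV

theorem clear_den {ι : Type*} (s : Finset ι) (f : ι → ℚ) :
    ∃ d : ℕ, 0 < d ∧ ∀ i ∈ s, ∃ z : ℤ, (z : ℚ) = d * f i := by
  obtain ⟨b, hb⟩ := IsLocalization.exist_integer_multiples (nonZeroDivisors ℤ) s f
  have hb0 : (b : ℤ) ≠ 0 := nonZeroDivisors.coe_ne_zero b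
  refine ⟨(b : ℤ).natAbs, Int.natAbs_pos.2 hb0, fun i hi => ?_⟩
  obtain ⟨z, hz⟩ := hb i hi
  have hz' : (z : ℚ) = (b : ℤ) * f i := by
    have h1 : (algebraMap ℤ ℚ) z = (b : ℤ) • f i := hz
    rw [zsmul_eq_mul] at h1
    exact h1
  rcases Int.natAbs_eq (b : ℤ) with h | h
  · refine ⟨z, ?_⟩
    rw [hz']
    have h2 := congrArg (Int.cast : ℤ → ℚ) h
    rw [Int.cast_natCast] at h2
    rw [← h2]
  · refine ⟨-z, ?_⟩
    push_cast
    rw [hz']
    have h2 := congrArg (Int.cast : ℤ → ℚ) h
    rw [Int.cast_neg, Int.cast_natCast] at h2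
    rw [← neg_eq_iff_eq_neg] at h2
    rw [← h2]; ring

theorem dich {n : ℕ} (J0 : Finset (Fin n)) (Q : Finset (Fin n → ℤ)) (j : Fin n) :
    (∃ (d : ℕ) (c : (Fin n → ℤ) → ℤ), 0 < d ∧ ∀ l, l ∉ J0 →
      ∑ q ∈ Q, c q * q l = if l = j then (d : ℤ) else 0) ∨
    ∃ b : Fin n → ℤ, b j ≠ 0 ∧ (∀ l ∈ J0, b l = 0) ∧ ∀ q ∈ Q, ∑ l, b l * q l = 0 := by
  classical
  let vq : (Fin n → ℤ) → (Fin n → ℚ) := fun q l => (q l : ℚ)
  let W : Submodule ℚ (Fin n → ℚ) := Submodule.span ℚ
    ((Q.image vq : Finset (Fin n → ℚ)) ∪ (J0.image fun l => (Pi.single l 1 : Fin n → ℚ)) : Set _)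
  by_cases hj : (Pi.single j 1 : Fin n → ℚ) ∈ W
  · left
    simp only [W] at hj
    rw [Submodule.span_union, Submodule.mem_sup] at hj
    obtain ⟨y, hy, z, hz, hyz⟩ := hj
    -- components of `z` vanish outside `J0`
    have hz0 : ∀ l, l ∉ J0 → z l = 0 := by
      intro l hl
      have : Submodule.span ℚ ((J0.image fun l => (Pi.single l 1 : Fin n → ℚ)) : Set (Fin n → ℚ)) ≤
          LinearMap.ker (LinearMap.proj l : (Fin n → ℚ) →ₗ[ℚ] ℚ) := by
        rw [Submodule.span_le]
        intro w hw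
        rw [Finset.coe_image] at hw
        obtain ⟨l', hl', rfl⟩ := hw
        rw [SetLike.mem_coe, LinearMap.mem_ker, LinearMap.proj_apply]
        apply Pi.single_eq_of_ne
        rintro rfl
        exact hl hl'
      exact this hz
    rw [Finset.coe_image] at hy
    obtain ⟨x, hx⟩ : ∃ x : (Fin n → ℤ) → ℚ, ∑ q ∈ Q, x q • vq q = y := by
      rw [Submodule.mem_span_image_finset_iff_exists_fun] at hy
      obtain ⟨c, hc⟩ := hy
      refine ⟨fun q => if h : q ∈ Q then c ⟨q, h⟩ else 0, ?_⟩
      rw [← hc, ← Finset.sum_coe_sort]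
      refine Finset.sum_congr rfl fun q _ => ?_
      simp only [q.2, dif_pos]
    obtain ⟨d, hd, hdz⟩ := clear_den Q x
    choose c hc using hdz
    refine ⟨d, fun q => if h : q ∈ Q then c q h else 0, hd, fun l hl => ?_⟩
    have h1 : ((∑ q ∈ Q, (if h : q ∈ Q then c q h else 0) * q l : ℤ) : ℚ) =
        (((if l = j then (d : ℤ) else 0) : ℤ) : ℚ) := by
      rw [Int.cast_sum]
      have h2 : ∑ q ∈ Q, (((if h : q ∈ Q then c q h else 0) * q l : ℤ) : ℚ) = d * y l := by
        rw [← hx, Finset.sum_apply, Finset.mul_sum]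
        refine Finset.sum_congr rfl fun q hq => ?_
        rw [dif_pos hq, Int.cast_mul, hc q hq, Pi.smul_apply, smul_eq_mul]
        ring
      rw [h2]
      have h3 : y l = (Pi.single j 1 : Fin n → ℚ) l := by
        rw [← hyz, Pi.add_apply, hz0 l hl, add_zero]
      rw [h3, Pi.single_apply]
      split_ifs <;> simp
    exact_mod_cast h1
  · right
    obtain ⟨φ, hφj, hφW⟩ := Submodule.exists_le_ker_of_notMem hj
    obtain ⟨d, hd, hdz⟩ := clear_den Finset.univ (fun l : Fin n => φ (Pi.single l 1))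
    choose b hb using fun l => hdz l (Finset.mem_univ l)
    have hd0 : (d : ℚ) ≠ 0 := by positivity
    have hφ : ∀ v : Fin n → ℚ, φ v = ∑ l, v l * φ (Pi.single l 1) := by
      intro v
      conv_lhs => rw [← Finset.univ_sum_single v]
      rw [map_sum]
      refine Finset.sum_congr rfl fun l _ => ?_
      rw [← smul_eq_mul, ← map_smul]
      congr 1
      rw [← Pi.single_smul]; simp
    refine ⟨b, ?_, fun l hl => ?_, fun q hq => ?_⟩
    · intro h0
      have := hb j
      rw [h0, Int.cast_zero] at this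
      exact hφj ((mul_eq_zero.1 this.symm).resolve_left hd0)
    · have h1 : (Pi.single l 1 : Fin n → ℚ) ∈ W := by
        apply Submodule.subset_span
        right
        rw [Finset.coe_image]
        exact ⟨l, hl, rfl⟩
      have h2 : φ (Pi.single l 1) = 0 := hφW h1
      have := hb l
      rw [h2, mul_zero] at this
      exact_mod_cast this
    · have h1 : vq q ∈ W := by
        apply Submodule.subset_span
        left
        rw [Finset.coe_image]
        exact ⟨q, hq, rfl⟩
      have h2 : φ (vq q) = 0 := hφW h1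
      rw [hφ] at h2
      have h3 : ((∑ l, b l * q l : ℤ) : ℚ) = 0 := by
        push_cast
        have h4 : ∑ l, (b l : ℚ) * (q l : ℚ) = d * ∑ l, vq q l * φ (Pi.single l 1) := by
          rw [Finset.mul_sum]
          refine Finset.sum_congr rfl fun l _ => ?_
          rw [hb l]; ring
        rw [h4, h2, mul_zero]
      exact_mod_cast h3

end Pool.Agent.W603.LV
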