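import Pool.Agent.W603.LV.Defs
import Pool.Agent.W603.LV.Lin

/-! The exceptional hypersurface, and one-parameter groups. -/

set_option autoImplicit false

open MvPolynomial

namespace Pool.Agent.W603.LV

universe u v w

variable {k : Type u} [Field k] {n : ℕ} {ι : Type v}

theorem irred_prod {U : Finset (Fin n)} {F : ι → MvPolynomial (Fin n) k} (hF : Irred U F)
    {κ : Type*} (s : Finset κ) (g : κ → MvPolynomial (Fin n) k)
    (h : ∀ k ∈ s, ∃ x ∈ Pts U F, eval x (g k) ≠ 0) : ∃ x ∈ Pts U F, eval x (∏ k ∈ s, g k) ≠ 0 := by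
  classical
  induction s using Finset.induction_on with
  | empty =>
    obtain ⟨x, hx⟩ := hF.1
    exact ⟨x, hx, by simp⟩
  | insert a s ha ih =>
    have h1 := ih (fun k hk => h k (Finset.mem_insert_of_mem hk))
    have h2 := h a (Finset.mem_insert_self a s)
    rw [Finset.prod_insert ha]
    by_contra hcon
    push Not at hcon
    rcases hF.2 _ _ hcon with h3 | h3
    · obtain ⟨x, hx, hx2⟩ := h2
      exact hx2 (h3 x hx)
    · obtain ⟨x, hx, hx2⟩ := h1
      exact hx2 (h3 x hx)

/-- partial sums of the terms of `F` -/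
noncomputable def sub (F : MvPolynomial (Fin n) k) (A : Finset (Fin n →₀ ℕ)) :
    MvPolynomial (Fin n) k := ∑ α ∈ A, monomial α (F.coeff α)

theorem aeval_sub {L : Type*} [Field L] [Algebra k L] (F : MvPolynomial (Fin n) k)
    (A : Finset (Fin n →₀ ℕ)) (x : Fin n → L) :
    aeval x (sub F A) = ∑ α ∈ A, algebraMap k L (F.coeff α) * ∏ j, x j ^ α j := by
  unfold sub
  rw [map_sum]
  refine Finset.sum_congr rfl fun α _ => ?_
  rw [aeval_monomial, Finsupp.prod_fintype _ _ (fun j => pow_zero _)]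

theorem eval_sub' (F : MvPolynomial (Fin n) k) (A : Finset (Fin n →₀ ℕ)) (x : Fin n → k) :
    eval x (sub F A) = ∑ α ∈ A, F.coeff α * ∏ j, x j ^ α j := by
  have := aeval_sub (L := k) F A x
  exact this

theorem aeval_eq_sub {L : Type*} [Field L] [Algebra k L] (F : MvPolynomial (Fin n) k)
    (x : Fin n → L) : aeval x F = ∑ α ∈ F.support, algebraMap k L (F.coeff α) * ∏ j, x j ^ α j := by
  rw [← aeval_sub]
  congr 1
  exact F.as_sum

theorem eval_laurent (F : MvPolynomial (Fin n) k) (x : Fin n → k) (b : Fin n → ℤ) (t : k)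
    (ht : t ≠ 0) : eval (fun j => x j * t ^ b j) F =
      ∑ α ∈ F.support, t ^ (∑ j, (α j : ℤ) * b j) * (F.coeff α * ∏ j, x j ^ α j) := by
  rw [eval_eq']
  refine Finset.sum_congr rfl fun α _ => ?_
  have h1 : ∏ j, (x j * t ^ b j) ^ α j = (∏ j, x j ^ α j) * t ^ (∑ j, (α j : ℤ) * b j) := by
    have h2 : t ^ (∑ j, (α j : ℤ) * b j) = ∏ j, t ^ ((α j : ℤ) * b j) := by
      induction (Finset.univ : Finset (Fin n)) using Finset.induction_on with
      | empty => simp
      | insert a s ha ih => rw [Finset.sum_insert ha, Finset.prod_insert ha, zpow_add₀ ht, ih]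
    rw [h2, ← Finset.prod_mul_distrib]
    refine Finset.prod_congr rfl fun j _ => ?_
    rw [mul_pow, mul_comm (α j : ℤ) (b j), zpow_mul, zpow_natCast]
  rw [h1]; ring

/-- if all parts of `F` of given weight vanish at `x`, then `F` vanishes on the orbit of `x` -/
theorem eval_laurent_zero (F : MvPolynomial (Fin n) k) (x : Fin n → k) (b : Fin n → ℤ) (t : k)
    (ht : t ≠ 0)
    (h : ∀ v : ℤ, eval x (sub F (F.support.filter fun α => ∑ j, (α j : ℤ) * b j = v)) = 0) :
    eval (fun j => x j * t ^ b j) F = 0 := by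
  classical
  rw [eval_laurent F x b t ht]
  rw [← Finset.sum_fiberwise_of_maps_to (s := F.support)
    (t := F.support.image (fun α => ∑ j, (α j : ℤ) * b j))
    (g := fun α => ∑ j, (α j : ℤ) * b j) (fun α hα => Finset.mem_image_of_mem _ hα)]
  apply Finset.sum_eq_zero
  intro v _
  have h4 : ∀ α ∈ F.support.filter (fun α => ∑ j, (α j : ℤ) * b j = v),
      t ^ (∑ j, (α j : ℤ) * b j) * (F.coeff α * ∏ j, x j ^ α j)
        = t ^ v * (F.coeff α * ∏ j, x j ^ α j) := by
    intro α hα
    rw [(Finset.mem_filter.1 hα).2]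
  rw [Finset.sum_congr rfl h4, ← Finset.mul_sum, ← eval_sub', h v, mul_zero]

open Classical in
/-- The exceptional hypersurface. -/
noncomputable def exc [Fintype ι] (U : Finset (Fin n)) (F : ι → MvPolynomial (Fin n) k) :
    MvPolynomial (Fin n) k :=
  (∏ j ∈ Finset.univ.filter (fun j => ∃ x ∈ Pts U F, x j ≠ 0), X j) *
    ∏ i, ∏ A ∈ (F i).support.powerset.filter (fun A => ∃ x ∈ Pts U F, eval x (sub (F i) A) ≠ 0),
      sub (F i) A

theorem exc_ne [Fintype ι] {U : Finset (Fin n)} {F : ι → MvPolynomial (Fin n) k}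
    (hF : Irred U F) : ∃ x ∈ Pts U F, eval x (exc U F) ≠ 0 := by
  classical
  have h1 : ∃ x ∈ Pts U F, eval x (∏ j ∈ Finset.univ.filter (fun j => ∃ x ∈ Pts U F, x j ≠ 0),
      (X j : MvPolynomial (Fin n) k)) ≠ 0 := by
    apply irred_prod hF
    intro j hj
    obtain ⟨x, hx, hxj⟩ := (Finset.mem_filter.1 hj).2
    exact ⟨x, hx, by rwa [eval_X]⟩
  have h2 : ∃ x ∈ Pts U F, eval x (∏ i, ∏ A ∈ (F i).support.powerset.filter
      (fun A => ∃ x ∈ Pts U F, eval x (sub (F i) A) ≠ 0), sub (F i) A) ≠ 0 := by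
    apply irred_prod hF
    intro i _
    apply irred_prod hF
    intro A hA
    exact (Finset.mem_filter.mp hA).2
  by_contra hcon
  push Not at hcon
  unfold exc at hcon
  rcases hF.2 _ _ hcon with h3 | h3
  · obtain ⟨x, hx, hx2⟩ := h1
    exact hx2 (h3 x hx)
  · obtain ⟨x, hx, hx2⟩ := h2
    exact hx2 (h3 x hx)

theorem exc_coord [Fintype ι] {U : Finset (Fin n)} {F : ι → MvPolynomial (Fin n) k} {L : Type*}
    [Field L] [Algebra k L] {f : Fin n → L} (hf : aeval f (exc U F) ≠ 0) {j : Fin n}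
    (hj : ∃ x ∈ Pts U F, x j ≠ 0) : f j ≠ 0 := by
  classical
  intro h0
  apply hf
  unfold exc
  rw [map_mul, map_prod, Finset.prod_eq_zero (i := j)]
  · rw [zero_mul]
  · simp [hj]
  · rw [aeval_X, h0]

theorem exc_sub [Fintype ι] {U : Finset (Fin n)} {F : ι → MvPolynomial (Fin n) k} {L : Type*}
    [Field L] [Algebra k L] {f : Fin n → L} (hf : aeval f (exc U F) ≠ 0) (i : ι)
    (A : Finset (Fin n →₀ ℕ)) (hA : A ⊆ (F i).support) (h0 : aeval f (sub (F i) A) = 0) :
    ∀ x ∈ Pts U F, eval x (sub (F i) A) = 0 := by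
  classical
  by_contra hcon
  push Not at hcon
  apply hf
  unfold exc
  rw [map_mul, map_prod (aeval f) (fun i => ∏ A ∈ (F i).support.powerset.filter
    (fun A => ∃ x ∈ Pts U F, eval x (sub (F i) A) ≠ 0), sub (F i) A)]
  rw [Finset.prod_eq_zero (Finset.mem_univ i), mul_zero]
  rw [map_prod]
  exact Finset.prod_eq_zero (Finset.mem_filter.mpr ⟨Finset.mem_powerset.mpr hA, hcon⟩) h0

/-- If `f` avoids the exceptional hypersurface and all the parts of the equations of given weight
vanish at `f`, then the one-parameter group preserves `X`. -/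
theorem preserves_of [Fintype ι] {U : Finset (Fin n)} {F : ι → MvPolynomial (Fin n) k}
    {L : Type*} [Field L] [Algebra k L] {f : Fin n → L} (hf : aeval f (exc U F) ≠ 0)
    (b : Fin n → ℤ) (h : ∀ i (v : ℤ), aeval f (sub (F i)
      ((F i).support.filter fun α => ∑ j, (α j : ℤ) * b j = v)) = 0) : Preserves U F b := by
  classical
  intro x hx t ht
  refine ⟨fun j hj => mul_ne_zero (hx.1 j hj) (zpow_ne_zero _ ht), fun i => ?_⟩
  apply eval_laurent_zero _ _ _ _ ht
  intro v
  exact exc_sub hf i _ (Finset.filter_subset _ _) (h i v) x hx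

theorem zpow_two_eq [CharZero k] {m : ℤ} (h : (2 : k) ^ m = 1) : m = 0 := by
  have h2 : ∀ q : ℕ, (2 : k) ^ q = 1 → q = 0 := by
    intro q hq
    have h3 : ((2 ^ q : ℕ) : k) = ((1 : ℕ) : k) := by push_cast; exact hq
    have h4 : 2 ^ q = 1 := by exact_mod_cast h3
    by_contra hq0
    have := Nat.one_lt_two_pow hq0
    omega
  cases m with
  | ofNat q =>
    rw [Int.ofNat_eq_natCast, zpow_natCast] at h
    have := h2 q h
    simp [this]
  | negSucc q =>
    rw [zpow_negSucc, inv_eq_one] at h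
    have := h2 _ h
    omega

end Pool.Agent.W603.LV
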