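import Mathlib

/-! Algebraic relations in the fraction field of a domain, and their images under a homomorphism to
a field. -/

set_option autoImplicit false

open MvPolynomial

namespace Pool.Agent.W603.LV

universe u v w

/-- A polynomial relation for an element that is algebraic over a finitely generated field. -/
theorem exists_rel {k : Type u} [Field k] {L : Type v} [Field L] [Algebra k L] {ρ : Type*}
    (r : ρ → L) (hr : Algebra.IsAlgebraic (IntermediateField.adjoin k (Set.range r)) L) (z : L) :
    ∃ (D : ℕ) (c : ℕ → MvPolynomial ρ k), aeval r (c D) ≠ 0 ∧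
      ∑ d ∈ Finset.range (D + 1), aeval r (c d) * z ^ d = 0 := by
  classical
  obtain ⟨p, hp0, hp⟩ := hr.isAlgebraic z
  have hc : ∀ a : IntermediateField.adjoin k (Set.range r), ∃ x y : MvPolynomial ρ k,
      aeval r y ≠ 0 ∧ (a : L) * aeval r y = aeval r x := by
    rintro ⟨a, ha⟩
    rw [IntermediateField.mem_adjoin_range_iff] at ha
    obtain ⟨x, y, hxy⟩ := ha
    by_cases hy : aeval r y = 0
    · refine ⟨0, 1, by simp, ?_⟩
      simp only [map_zero, map_one, mul_one]
      rw [hxy, hy, div_zero]
    · refine ⟨x, y, hy, ?_⟩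
      simp only
      rw [hxy]; field_simp
  choose x y hy hxy using hc
  refine ⟨p.natDegree, fun d => if d ∈ p.support then x (p.coeff d) *
    ∏ j ∈ p.support.erase d, y (p.coeff j) else 0, ?_, ?_⟩
  · have h1 : p.natDegree ∈ p.support := Polynomial.natDegree_mem_support_of_nonzero hp0
    simp only [h1, if_true]
    rw [map_mul, map_prod]
    refine mul_ne_zero ?_ (Finset.prod_ne_zero_iff.2 fun j _ => hy _)
    rw [← hxy]
    refine mul_ne_zero ?_ (hy _)
    intro h0
    exact Polynomial.mem_support_iff.1 h1 (Subtype.ext h0)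
  · have h2 : ∑ d ∈ p.support, (p.coeff d : L) * z ^ d = 0 := by
      rw [← hp, Polynomial.aeval_def, Polynomial.eval₂_eq_sum, Polynomial.sum]
      rfl
    have h3 : ∑ d ∈ Finset.range (p.natDegree + 1), aeval r (if d ∈ p.support then x (p.coeff d) *
        ∏ j ∈ p.support.erase d, y (p.coeff j) else 0) * z ^ d =
        ∑ d ∈ p.support, aeval r (x (p.coeff d) * ∏ j ∈ p.support.erase d, y (p.coeff j)) *
          z ^ d := by
      refine (Finset.sum_subset (s₁ := p.support) ?_ ?_).symm.trans ?_
      · intro d hd
        exact Finset.mem_range.2 (Nat.lt_succ_of_le (Polynomial.le_natDegree_of_mem_supp d hd))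
      · intro d _ hd
        rw [if_neg hd, map_zero, zero_mul]
      · refine Finset.sum_congr rfl fun d hd => ?_
        rw [if_pos hd]
    rw [h3]
    have h4 : ∀ d ∈ p.support, aeval r (x (p.coeff d) * ∏ j ∈ p.support.erase d, y (p.coeff j)) *
        z ^ d = (∏ j ∈ p.support, aeval r (y (p.coeff j))) * ((p.coeff d : L) * z ^ d) := by
      intro d hd
      rw [map_mul, map_prod, ← hxy, ← Finset.mul_prod_erase p.support _ hd]
      ring
    rw [Finset.sum_congr rfl h4, ← Finset.mul_sum, h2, mul_zero]

section
variable {k : Type u} [Field k] {A : Type v} [CommRing A] [IsDomain A] [Algebra k A]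
  {K : Type w} [Field K] [Algebra k K] (θ : A →ₐ[k] K)

/-- the elements that do not map to zero -/
def nz : Submonoid A where
  carrier := {b | θ b ≠ 0}
  one_mem' := by simp
  mul_mem' := by
    intro a b ha hb
    simp only [Set.mem_ofPred_eq] at ha hb ⊢
    rw [map_mul]
    exact mul_ne_zero ha hb

omit [IsDomain A] in
theorem nz_unit (b : nz θ) : IsUnit (θ b) := (b.2 : θ b ≠ 0).isUnit

omit [IsDomain A] in
theorem nz_ne (b : nz θ) : (b : A) ≠ 0 := by
  intro h
  have := b.2
  rw [h] at this
  exact this (map_zero θ)

/-- Transfer of polynomial identities in fractions. -/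
theorem transfer {ρ : Type*} (a b : ρ → A) (hb : ∀ i, θ (b i) ≠ 0) :
    ∃ (B : Type v) (_ : CommRing B) (_ : Algebra k B) (q : ρ → B) (x : A → B)
      (j : B →ₐ[k] FractionRing A) (Θ : B →ₐ[k] K), Function.Injective j ∧
      (∀ i, j (q i) = algebraMap A (FractionRing A) (a i) / algebraMap A (FractionRing A) (b i)) ∧
      (∀ i, Θ (q i) = θ (a i) / θ (b i)) ∧
      (∀ c, j (x c) = algebraMap A (FractionRing A) c) ∧ (∀ c, Θ (x c) = θ c) := by
  let M := nz θ
  let B := Localization M
  have hj : ∀ y : M, IsUnit (IsScalarTower.toAlgHom k A (FractionRing A) (y : A)) := by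
    intro y
    apply IsUnit.mk0
    rw [IsScalarTower.toAlgHom_apply]
    intro h0
    exact nz_ne θ y ((IsFractionRing.injective A (FractionRing A)) (by rw [h0, map_zero]))
  let j : B →ₐ[k] FractionRing A := IsLocalization.liftAlgHom (M := M) hj
  let Θ : B →ₐ[k] K := IsLocalization.liftAlgHom (M := M) (f := θ) (nz_unit θ)
  have hinj : Function.Injective j := by
    change Function.Injective (IsLocalization.lift (M := M) hj)
    rw [IsLocalization.lift_injective_iff]
    intro x y
    constructor
    · intro h
      obtain ⟨c, hc⟩ := (IsLocalization.eq_iff_exists M B).1 h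
      have := mul_left_cancel₀ (nz_ne θ c) hc
      rw [this]
    · intro h
      have h1 : x = y := by
        apply IsFractionRing.injective A (FractionRing A)
        exact h
      rw [h1]
  have hjx : ∀ c : A, j (algebraMap A B c) = algebraMap A (FractionRing A) c := by
    intro c
    change IsLocalization.lift (M := M) hj (algebraMap A B c) = _
    rw [IsLocalization.lift_eq]; rfl
  have hΘx : ∀ c : A, Θ (algebraMap A B c) = θ c := by
    intro c
    change IsLocalization.lift (M := M) (nz_unit θ) (algebraMap A B c) = _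
    rw [IsLocalization.lift_eq]; rfl
  refine ⟨B, inferInstance, inferInstance, fun i => IsLocalization.mk' B (a i) (⟨b i, hb i⟩ : M),
    algebraMap A B, j, Θ, hinj, ?_, ?_, hjx, hΘx⟩
  · intro i
    have h1 : IsLocalization.mk' B (a i) (⟨b i, hb i⟩ : M) * algebraMap A B (b i) =
        algebraMap A B (a i) := IsLocalization.mk'_spec B (a i) (⟨b i, hb i⟩ : M)
    have h2 := congrArg j h1
    rw [map_mul, hjx, hjx] at h2
    have h3 : algebraMap A (FractionRing A) (b i) ≠ 0 := by
      intro h0
      exact nz_ne θ ⟨b i, hb i⟩ ((IsFractionRing.injective A (FractionRing A)) (by rw [h0, map_zero]))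
    rw [← h2]
    field_simp
  · intro i
    have h1 : IsLocalization.mk' B (a i) (⟨b i, hb i⟩ : M) * algebraMap A B (b i) =
        algebraMap A B (a i) := IsLocalization.mk'_spec B (a i) (⟨b i, hb i⟩ : M)
    have h2 := congrArg Θ h1
    rw [map_mul, hΘx, hΘx] at h2
    have h3 := hb i
    rw [← h2]
    field_simp

end

end Pool.Agent.W603.LV
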