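import Pool.Agent.W603.LV.CritDefs
import Pool.Agent.W603.LV.Root
import Pool.Agent.W603.LV.Trans
import Pool.Agent.W603.LV.Spec

/-! The degree bound for affine varieties with a rigid system of generalised unit equations. -/

set_option autoImplicit false

open FF MvPolynomial

namespace Pool.Agent.W603.LV

universe u v w z

variable {k : Type u} [Field k] {A : Type v} [CommRing A] [IsDomain A] [Algebra k A]
  {I : Type z} {s : I → ℕ}

/-- indices of pairs of terms -/
abbrev Idx (s : I → ℕ) : Type z := Σ i : I, Fin (s i) × Fin (s i)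

open Classical in
/-- numerators of the ratios -/
noncomputable def nums (t : (i : I) → Fin (s i) → A) (R : (i : I) → Fin (s i) → Fin (s i) → Prop)
    (p : Idx s) : A := if R p.1 p.2.1 p.2.2 ∧ t p.1 p.2.2 ≠ 0 then t p.1 p.2.1 else 0

open Classical in
/-- denominators of the ratios -/
noncomputable def dens (t : (i : I) → Fin (s i) → A) (R : (i : I) → Fin (s i) → Fin (s i) → Prop)
    (p : Idx s) : A := if R p.1 p.2.1 p.2.2 ∧ t p.1 p.2.2 ≠ 0 then t p.1 p.2.2 else 1

/-- the ratios as a family -/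
noncomputable def rat (t : (i : I) → Fin (s i) → A)
    (R : (i : I) → Fin (s i) → Fin (s i) → Prop) (p : Idx s) : FractionRing A :=
  algebraMap A (FractionRing A) (nums t R p) / algebraMap A (FractionRing A) (dens t R p)

theorem adjoin_rat (t : (i : I) → Fin (s i) → A) (R : (i : I) → Fin (s i) → Fin (s i) → Prop) :
    IntermediateField.adjoin k (Set.range (rat t R)) = IntermediateField.adjoin k (ratios t R) := by
  classical
  apply le_antisymm
  · rw [IntermediateField.adjoin_le_iff]
    rintro _ ⟨p, rfl⟩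
    unfold rat nums dens
    by_cases h : R p.1 p.2.1 p.2.2 ∧ t p.1 p.2.2 ≠ 0
    · rw [if_pos h, if_pos h]
      exact IntermediateField.subset_adjoin _ _ ⟨p.1, p.2.1, p.2.2, h.1, rfl⟩
    · rw [if_neg h, map_zero, zero_div]
      exact zero_mem _
  · rw [IntermediateField.adjoin_le_iff]
    rintro _ ⟨i, a, b, h, rfl⟩
    by_cases hb : t i b = 0
    · rw [hb, map_zero, div_zero]
      exact zero_mem _
    · have h1 : rat t R ⟨i, a, b⟩ = algebraMap A (FractionRing A) (t i a) /
          algebraMap A (FractionRing A) (t i b) := by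
        unfold rat nums dens
        rw [if_pos ⟨h, hb⟩, if_pos ⟨h, hb⟩]
      rw [← h1]
      exact IntermediateField.subset_adjoin _ _ ⟨_, rfl⟩

theorem criterion [IsAlgClosed k] [CharZero k] [Finite I] (N : I → ℕ)
    (ψ φ : (i : I) → Fin (s i) → A) (hN0 : ∀ i, 0 < N i) (hN : ∀ i, (s i - 1) ^ 2 ≤ N i)
    (hψ : ∀ i a, IsUnit (ψ i a)) (hrel : ∀ i, ∑ a, ψ i a * φ i a ^ N i = 0)
    (hrig : Rigid k (fun i a => ψ i a * φ i a ^ N i)) {n : ℕ} (x : Fin n → A)
    (hx : Algebra.adjoin k (Set.range x) = ⊤) :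
    ∃ g : A, g ≠ 0 ∧ ∃ B : ℕ, ∀ (K : Type w) [Field K] [Algebra k K] [IsFF k K]
      (S : Finset (Place k K)) (θ : A →ₐ[k] K), (∀ a, ∀ P : Place k K, P ∉ S → 0 ≤ P.ord (θ a)) →
      θ g ≠ 0 → (∃ a, θ a ∉ Set.range (algebraMap k K)) →
        mapDeg k (fun j => θ (x j)) ≤ B * euler S := by
  classical
  have := Fintype.ofFinite I
  set t : (i : I) → Fin (s i) → A := fun i a => ψ i a * φ i a ^ N i with ht
  -- admissible partitions
  let adm : ((i : I) → Fin (s i) → Fin (s i) → Prop) → Prop := fun R =>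
    (∀ i, Equivalence (R i)) ∧ ∀ i a, ∑ b ∈ Finset.univ.filter (R i a), t i b = 0
  have key : ∀ (R : (i : I) → Fin (s i) → Fin (s i) → Prop) (j : Fin n),
      ∃ (D : ℕ) (c : ℕ → MvPolynomial (Idx s) k) (num den : A), num ≠ 0 ∧ (adm R →
        aeval (rat t R) (c D) * algebraMap A (FractionRing A) den =
          algebraMap A (FractionRing A) num ∧
        ∑ d ∈ Finset.range (D + 1), aeval (rat t R) (c d) *
          (algebraMap A (FractionRing A) (x j)) ^ d = 0) := by
    intro R j
    by_cases hR : adm R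
    · have h1 := hrig R hR.1 hR.2
      rw [← adjoin_rat] at h1
      obtain ⟨D, c, hc, hc'⟩ := exists_rel (rat t R) h1 (algebraMap A (FractionRing A) (x j))
      obtain ⟨num, den, hden, hnd⟩ := IsFractionRing.div_surjective (A := A)
        (aeval (rat t R) (c D))
      have hden0 : algebraMap A (FractionRing A) den ≠ 0 := by
        intro h0
        have h2 : den = 0 := IsFractionRing.injective A (FractionRing A) (by rw [h0, map_zero])
        rw [h2] at hden
        exact zero_notMem_nonZeroDivisors hden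
      refine ⟨D, c, num, den, ?_, fun _ => ⟨?_, hc'⟩⟩
      · rintro rfl
        rw [map_zero, zero_div] at hnd
        exact hc hnd.symm
      · rw [← hnd]; field_simp
    · exact ⟨0, fun _ => 0, 1, 1, one_ne_zero, fun h => absurd h hR⟩
  choose D c num den hnum hkey using key
  have hRfin : Finite ((i : I) → Fin (s i) → Fin (s i) → Prop) := inferInstance
  have := Fintype.ofFinite ((i : I) → Fin (s i) → Fin (s i) → Prop)
  -- the exceptional set
  set g1 : A := ∏ i, ∏ a, (if t i a = 0 then 1 else t i a) with hg1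
  set g2 : A := ∏ i, ∏ B : Finset (Fin (s i)), (if ∑ b ∈ B, t i b = 0 then 1 else ∑ b ∈ B, t i b)
    with hg2
  set g3 : A := ∏ R, ∏ j, num R j with hg3
  obtain ⟨B0, hB0⟩ : ∃ B0 : ℕ, B0 = ∑ i, s i * (N i * (tri (s i)).toNat) := ⟨_, rfl⟩
  obtain ⟨C1, hC1⟩ : ∃ C1 : ℕ, C1 = ∑ R, ∑ j, ∑ d ∈ Finset.range (D R j + 1),
    (c R j d).totalDegree := ⟨_, rfl⟩
  refine ⟨g1 * g2 * g3, ?_, n * (C1 * (Fintype.card (Idx s) * B0)), ?_⟩
  · refine mul_ne_zero (mul_ne_zero ?_ ?_) ?_
    · refine Finset.prod_ne_zero_iff.2 fun i _ => Finset.prod_ne_zero_iff.2 fun a _ => ?_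
      split_ifs with h
      · exact one_ne_zero
      · exact h
    · refine Finset.prod_ne_zero_iff.2 fun i _ => Finset.prod_ne_zero_iff.2 fun B _ => ?_
      split_ifs with h
      · exact one_ne_zero
      · exact h
    · exact Finset.prod_ne_zero_iff.2 fun R _ => Finset.prod_ne_zero_iff.2 fun j _ => hnum R j
  intro K _ _ _ S θ hθS hθg hnc
  rw [map_mul, map_mul] at hθg
  have hθg3 : θ g3 ≠ 0 := right_ne_zero_of_mul hθg
  have hθg2 : θ g2 ≠ 0 := right_ne_zero_of_mul (left_ne_zero_of_mul hθg)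
  have hθg1 : θ g1 ≠ 0 := left_ne_zero_of_mul (left_ne_zero_of_mul hθg)
  have hθt : ∀ i a, t i a ≠ 0 → θ (t i a) ≠ 0 := by
    intro i a ha h0
    apply hθg1
    rw [hg1, map_prod]
    apply Finset.prod_eq_zero (Finset.mem_univ i)
    rw [map_prod]
    apply Finset.prod_eq_zero (Finset.mem_univ a)
    rw [if_neg ha, h0]
  have hθsum : ∀ i (B : Finset (Fin (s i))), θ (∑ b ∈ B, t i b) = 0 → ∑ b ∈ B, t i b = 0 := by
    intro i B h0
    by_contra hne
    apply hθg2
    rw [hg2, map_prod]
    apply Finset.prod_eq_zero (Finset.mem_univ i)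
    rw [map_prod]
    apply Finset.prod_eq_zero (Finset.mem_univ B)
    rw [if_neg hne, h0]
  have hθnum : ∀ R j, θ (num R j) ≠ 0 := by
    intro R j h0
    apply hθg3
    rw [hg3, map_prod]
    apply Finset.prod_eq_zero (Finset.mem_univ R)
    rw [map_prod]
    exact Finset.prod_eq_zero (Finset.mem_univ j) h0
  set χ : ℤ := max (canDeg k K + S.card) 0 with hχ
  have hχ0 : 0 ≤ χ := le_max_right _ _
  -- units
  have hunit : ∀ (a : A), IsUnit a → ∀ P : Place k K, P ∉ S → P.ord (θ a) = 0 := by
    rintro a ⟨a', rfl⟩ P hP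
    have h1 := hθS (a' : A) P hP
    have h2 := hθS ((a'⁻¹ : Aˣ) : A) P hP
    have h3 : θ (a' : A) * θ ((a'⁻¹ : Aˣ) : A) = 1 := by
      rw [← map_mul, Units.mul_inv, map_one]
    have h4 : θ ((a'⁻¹ : Aˣ) : A) = (θ (a' : A))⁻¹ := eq_inv_of_mul_eq_one_right h3
    rw [h4, P.ord_inv] at h2
    omega
  -- blocks
  have hblk : ∀ i, ∃ R : {a : Fin (s i) // t i a ≠ 0} → {a : Fin (s i) // t i a ≠ 0} → Prop,
      Equivalence R ∧ (∀ a b, R a b → hgt k (θ (t i a) / θ (t i b)) ≤ s i *
        (N i * tri (s i) * χ)) ∧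
      ∀ (a0 : {a : Fin (s i) // t i a ≠ 0}) (B : Finset {a : Fin (s i) // t i a ≠ 0}),
        (∀ a, a ∈ B ↔ R a0 a) → ∑ a ∈ B, θ (t i a) = 0 := by
    intro i
    refine blocks S (s := s i) ?_ (hN0 i) (hN i)
      (fun a : {a : Fin (s i) // t i a ≠ 0} => θ (t i a)) (fun a => hθt i a a.2) ?_ ?_
    · have := Fintype.card_subtype_le (fun a : Fin (s i) => t i a ≠ 0)
      rwa [Fintype.card_fin] at this
    · have h1 : ∑ a : Fin (s i), θ (t i a) = 0 := by
        rw [← map_sum]
        have := hrel i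
        change ∑ a, t i a = 0 at this
        rw [this, map_zero]
      rw [← h1, ← Finset.sum_filter_add_sum_filter_not Finset.univ (fun a => t i a ≠ 0),
        Finset.sum_eq_zero (s := Finset.univ.filter fun a => ¬ t i a ≠ 0), add_zero]
      · exact (Finset.sum_subtype _ (by simp) (fun a => θ (t i a))).symm
      · intro a ha
        rw [Finset.mem_filter, not_not] at ha
        rw [ha.2, map_zero]
    · intro P hP a b
      have h1 : ∀ a : {a : Fin (s i) // t i a ≠ 0}, P.ord (θ (t i a)) = N i * P.ord (θ (φ i a)) := by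
        intro a
        have h2 := hθt i a a.2
        simp only [ht, map_mul, map_pow] at h2 ⊢
        rw [P.ord_mul (left_ne_zero_of_mul h2) (right_ne_zero_of_mul h2),
          hunit _ (hψ i a) P hP, P.ord_pow, zero_add]
      rw [h1 a, h1 b, ← mul_sub]
      exact dvd_mul_right _ _
  choose R0 hR0e hR0h hR0s using hblk
  obtain ⟨R, hRiff⟩ : ∃ R : (i : I) → Fin (s i) → Fin (s i) → Prop, ∀ i a b, R i a b ↔
      (a = b ∨ ∃ (ha : t i a ≠ 0) (hb : t i b ≠ 0), R0 i ⟨a, ha⟩ ⟨b, hb⟩) :=
    ⟨fun i a b => a = b ∨ ∃ (ha : t i a ≠ 0) (hb : t i b ≠ 0), R0 i ⟨a, ha⟩ ⟨b, hb⟩,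
      fun _ _ _ => Iff.rfl⟩
  have hRadm : adm R := by
    refine ⟨fun i => ⟨fun a => (hRiff i a a).2 (Or.inl rfl), ?_, ?_⟩, fun i a => ?_⟩
    · intro a b hab
      rw [hRiff] at hab ⊢
      rcases hab with rfl | ⟨ha, hb, h⟩
      · exact Or.inl rfl
      · exact Or.inr ⟨hb, ha, (hR0e i).symm h⟩
    · intro a b c hab hbc
      rw [hRiff] at hab hbc ⊢
      rcases hab with rfl | ⟨ha, hb, h⟩
      · exact hbc
      · rcases hbc with rfl | ⟨hb', hc, h'⟩
        · exact Or.inr ⟨ha, hb, h⟩
        · exact Or.inr ⟨ha, hc, (hR0e i).trans h h'⟩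
    · apply hθsum
      by_cases ha : t i a = 0
      · have h1 : Finset.univ.filter (R i a) = {a} := by
          ext b
          simp only [Finset.mem_filter, Finset.mem_univ, true_and, Finset.mem_singleton, hRiff]
          constructor
          · rintro (h | ⟨ha', -, -⟩)
            · exact h.symm
            · exact absurd ha ha'
          · intro h; exact Or.inl h.symm
        rw [h1, Finset.sum_singleton, ha, map_zero]
      · rw [map_sum]
        have h1 := hR0s i ⟨a, ha⟩ (Finset.univ.filter (R0 i ⟨a, ha⟩)) (by simp)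
        rw [← h1]
        symm
        refine Finset.sum_bij (fun b _ => (b : Fin (s i))) ?_ ?_ ?_ ?_
        · intro b hb
          simp only [Finset.mem_filter, Finset.mem_univ, true_and, hRiff] at hb ⊢
          exact Or.inr ⟨ha, b.2, hb⟩
        · intro b _ b' _ h
          exact Subtype.ext h
        · intro b hb
          simp only [Finset.mem_filter, Finset.mem_univ, true_and, hRiff] at hb
          rcases hb with rfl | ⟨ha', hb, h⟩
          · exact ⟨⟨a, ha⟩, by simp [(hR0e i).refl], rfl⟩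
          · exact ⟨⟨b, hb⟩, by simpa using h, rfl⟩
        · intro b _; rfl
  -- heights of the ratios
  set rθ : Idx s → K := fun p => θ (nums t R p) / θ (dens t R p) with hrθ
  have hdens : ∀ p, θ (dens t R p) ≠ 0 := by
    intro p
    unfold dens
    split_ifs with h
    · exact hθt _ _ h.2
    · rw [map_one]; exact one_ne_zero
  have hrθh : ∀ p, hgt k (rθ p) ≤ B0 * χ := by
    intro p
    have hB00 : (0 : ℤ) ≤ B0 * χ := mul_nonneg (Nat.cast_nonneg _) hχ0
    simp only [hrθ]
    unfold nums dens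
    by_cases h : R p.1 p.2.1 p.2.2 ∧ t p.1 p.2.2 ≠ 0
    · rw [if_pos h, if_pos h]
      rcases (hRiff _ _ _).1 h.1 with h1 | ⟨ha, hb, h1⟩
      · rw [h1, div_self (hθt _ _ h.2), hgt_one]; exact hB00
      · refine (hR0h p.1 _ _ h1).trans ?_
        have h2 : ((s p.1 * (N p.1 * (tri (s p.1)).toNat) : ℕ) : ℤ) ≤ B0 := by
          rw [hB0]
          exact_mod_cast Finset.single_le_sum
            (f := fun i => s i * (N i * (tri (s i)).toNat))
            (fun _ _ => Nat.zero_le _) (Finset.mem_univ p.1)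
        have h3 := mul_le_mul_of_nonneg_right h2 hχ0
        refine le_trans (le_of_eq ?_) h3
        rw [Nat.cast_mul, Nat.cast_mul, Int.toNat_of_nonneg (tri_nonneg _)]
        ring
    · rw [if_neg h, map_zero, zero_div, hgt_zero]; exact hB00
  have hrsum : ∑ p, hgt k (rθ p) ≤ (Fintype.card (Idx s) * B0 : ℕ) * χ := by
    refine (Finset.sum_le_sum fun p _ => hrθh p).trans ?_
    rw [Finset.sum_const, nsmul_eq_mul, Finset.card_univ]
    push_cast
    exact le_of_eq (by ring)
  -- transfer of the relations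
  obtain ⟨Bt, _, _, q, xt, jt, Θ, hjinj, hjq, hΘq, hjx, hΘx⟩ :=
    transfer (k := k) θ (nums t R) (dens t R) hdens
  have hjq' : (fun p => jt (q p)) = rat t R := funext hjq
  have hΘq' : (fun p => Θ (q p)) = rθ := funext hΘq
  have hcoord : ∀ j, hgt k (θ (x j)) ≤ (C1 * (Fintype.card (Idx s) * B0) : ℕ) * χ := by
    intro j
    obtain ⟨h1, h2⟩ := hkey R j hRadm
    have hjc : ∀ P : MvPolynomial (Idx s) k, jt (aeval q P) = aeval (rat t R) P := by
      intro P
      rw [← hjq', ← AlgHom.comp_apply, comp_aeval]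
    have hΘc : ∀ P : MvPolynomial (Idx s) k, Θ (aeval q P) = aeval rθ P := by
      intro P
      rw [← hΘq', ← AlgHom.comp_apply, comp_aeval]
    have h3 : aeval q (c R j (D R j)) * xt (den R j) = xt (num R j) := by
      apply hjinj
      rw [map_mul, hjc, hjx, hjx, h1]
    have h4 : ∑ d ∈ Finset.range (D R j + 1), aeval q (c R j d) * (xt (x j)) ^ d = 0 := by
      apply hjinj
      rw [map_sum, map_zero, ← h2]
      refine Finset.sum_congr rfl fun d _ => ?_
      rw [map_mul, map_pow, hjc, hjx]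
    have h5 := congrArg Θ h3
    rw [map_mul, hΘc, hΘx, hΘx] at h5
    have h6 : aeval rθ (c R j (D R j)) ≠ 0 := by
      intro h0
      rw [h0, zero_mul] at h5
      exact hθnum R j h5.symm
    have h7 := congrArg Θ h4
    rw [map_sum, map_zero] at h7
    have h8 : ∑ d ∈ Finset.range (D R j + 1), aeval rθ (c R j d) * (θ (x j)) ^ d = 0 := by
      rw [← h7]
      refine Finset.sum_congr rfl fun d _ => ?_
      rw [map_mul, map_pow, hΘc, hΘx]
    have h9 := hgt_root (k := k) (fun d => aeval rθ (c R j d)) h6 (θ (x j)) h8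
    have h10 : hgt k (aeval rθ (c R j (D R j))) + ∑ d ∈ Finset.range (D R j),
        hgt k (aeval rθ (c R j d)) = ∑ d ∈ Finset.range (D R j + 1),
        hgt k (aeval rθ (c R j d)) := by
      rw [Finset.sum_range_succ, add_comm]
    rw [h10] at h9
    have h11 : ∑ d ∈ Finset.range (D R j + 1), hgt k (aeval rθ (c R j d)) ≤
        ∑ d ∈ Finset.range (D R j + 1), ((c R j d).totalDegree : ℤ) *
          ((Fintype.card (Idx s) * B0 : ℕ) * χ) := by
      refine Finset.sum_le_sum fun d _ => (hgt_mvpoly rθ _).trans ?_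
      exact mul_le_mul_of_nonneg_left hrsum (Nat.cast_nonneg _)
    rw [← Finset.sum_mul] at h11
    have h12 : ∑ d ∈ Finset.range (D R j + 1), (c R j d).totalDegree ≤ C1 := by
      rw [hC1]
      refine le_trans ?_ (Finset.single_le_sum (f := fun R => ∑ j,
        ∑ d ∈ Finset.range (D R j + 1), (c R j d).totalDegree) (fun _ _ => Nat.zero_le _)
        (Finset.mem_univ R))
      exact Finset.single_le_sum (f := fun j =>
        ∑ d ∈ Finset.range (D R j + 1), (c R j d).totalDegree) (fun _ _ => Nat.zero_le _)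
        (Finset.mem_univ j)
    have h13 : (∑ d ∈ Finset.range (D R j + 1), ((c R j d).totalDegree : ℤ)) ≤ C1 := by
      exact_mod_cast h12
    have h14 : (0 : ℤ) ≤ (Fintype.card (Idx s) * B0 : ℕ) * χ :=
      mul_nonneg (Nat.cast_nonneg _) hχ0
    have h15 := mul_le_mul_of_nonneg_right h13 h14
    refine (h9.trans h11).trans (h15.trans (le_of_eq ?_))
    push_cast; ring
  -- positivity of the Euler characteristic
  have hnc' : ∃ j, θ (x j) ∉ Set.range (algebraMap k K) := by
    by_contra hcon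
    push Not at hcon
    obtain ⟨a, ha⟩ := hnc
    apply ha
    have h1 : Algebra.adjoin k (Set.range x) ≤ (⊥ : Subalgebra k K).comap θ := by
      rw [Algebra.adjoin_le_iff]
      rintro _ ⟨j, rfl⟩
      rw [SetLike.mem_coe, Subalgebra.mem_comap, Algebra.mem_bot]
      exact hcon j
    rw [hx] at h1
    have h2 : a ∈ (⊥ : Subalgebra k K).comap θ := h1 (Algebra.mem_top)
    rw [Subalgebra.mem_comap, Algebra.mem_bot] at h2
    exact h2
  obtain ⟨j, hj⟩ := hnc'
  have hpos : 0 < hgt k (θ (x j)) := by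
    by_contra hcon
    push Not at hcon
    obtain ⟨c, hc⟩ := const_of_hgt hcon
    exact hj ⟨c, hc.symm⟩
  have hχpos : 0 < χ := by
    rcases hχ0.lt_or_eq with h | h
    · exact h
    · have := hcoord j
      rw [← h, mul_zero] at this
      omega
  have hχe : χ = euler S := by
    unfold euler
    rw [hχ]
    apply max_eq_left
    by_contra hcon
    push Not at hcon
    rw [hχ, max_eq_right hcon.le] at hχpos
    exact lt_irrefl _ hχpos
  rw [← hχe]
  refine (mapDeg_le _).trans ?_
  refine (Finset.sum_le_sum fun j _ => hcoord j).trans ?_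
  rw [Finset.sum_const, nsmul_eq_mul, Finset.card_univ, Fintype.card_fin]
  push_cast
  exact le_of_eq (by ring)

end Pool.Agent.W603.LV
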