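import Pool.Agent.W603.LV.Defs

/-! Generalised unit equations on affine varieties. -/

set_option autoImplicit false

namespace Pool.Agent.W603.LV

universe u v w

variable {A : Type v} [CommRing A] [IsDomain A] {I : Type w} {s : I → ℕ}

/-- The ratios `t i a / t i b`, in the fraction field of `A`, of the terms in the same block. -/
def ratios (t : (i : I) → Fin (s i) → A) (R : (i : I) → Fin (s i) → Fin (s i) → Prop) :
    Set (FractionRing A) :=
  {r | ∃ i a b, R i a b ∧ r = algebraMap A (FractionRing A) (t i a) /
    algebraMap A (FractionRing A) (t i b)}

open Classical in
/-- The terms `t i a`, `a < s i`, are rigid: whenever the terms for each `i` are partitioned into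
blocks (the classes of the equivalence relation `R i`) with sum zero, the fraction field of `A` is
algebraic over the field generated over `k` by the ratios of the terms in the same block. -/
def Rigid (k : Type u) [Field k] [Algebra k A] (t : (i : I) → Fin (s i) → A) : Prop :=
  ∀ R : (i : I) → Fin (s i) → Fin (s i) → Prop, (∀ i, Equivalence (R i)) →
    (∀ i a, ∑ b ∈ Finset.univ.filter (R i a), t i b = 0) →
      Algebra.IsAlgebraic (IntermediateField.adjoin k (ratios t R)) (FractionRing A)

end Pool.Agent.W603.LV
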