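import Pool.Agent.W603.LV.Ord

/-! Derivations of function fields of curves: the derivation `d/dπ` preserves the local ring. -/

set_option autoImplicit false

open Polynomial FF

namespace Pool.Agent.W603.LV

variable {k K : Type*} [Field k] [Field K] [Algebra k K]

/-- value of a polynomial in two variables -/
noncomputable def E2 (t y : K) : k[X][X] →+* K :=
  eval₂RingHom ((aeval t : k[X] →ₐ[k] K) : k[X] →+* K) y

theorem E2_apply (t y : K) (G : k[X][X]) :
    E2 t y G = eval₂ ((aeval t : k[X] →ₐ[k] K) : k[X] →+* K) y G := rfl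

theorem E2_monomial (t y : K) (i : ℕ) (a : k[X]) : E2 t y (monomial i a) = aeval t a * y ^ i := by
  rw [E2_apply, eval₂_monomial]; rfl

/-- the derivative with respect to the first variable -/
noncomputable def dX (G : k[X][X]) : k[X][X] :=
  ∑ i ∈ G.support, monomial i (derivative (G.coeff i))

theorem chain (D : Derivation k K K) (t y : K) (G : k[X][X]) :
    D (E2 t y G) = E2 t y (dX G) * D t + E2 t y (derivative G) * D y := by
  have h1 : G = ∑ i ∈ G.support, monomial i (G.coeff i) := G.as_sum_support
  have h2 : E2 t y G = ∑ i ∈ G.support, aeval t (G.coeff i) * y ^ i := by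
    conv_lhs => rw [h1]
    rw [map_sum]
    exact Finset.sum_congr rfl fun i _ => E2_monomial t y i _
  have h3 : E2 t y (derivative G) =
      ∑ i ∈ G.support, aeval t (G.coeff i) * (i : K) * y ^ (i - 1) := by
    conv_lhs => rw [h1]
    rw [derivative_sum, map_sum]
    refine Finset.sum_congr rfl fun i _ => ?_
    rw [derivative_monomial, E2_monomial, map_mul, map_natCast]
  have h4 : E2 t y (dX G) = ∑ i ∈ G.support, aeval t (derivative (G.coeff i)) * y ^ i := by
    unfold dX
    rw [map_sum]
    exact Finset.sum_congr rfl fun i _ => E2_monomial t y i _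
  rw [h2, h3, h4, map_sum, Finset.sum_mul, Finset.sum_mul, ← Finset.sum_add_distrib]
  refine Finset.sum_congr rfl fun i _ => ?_
  rw [D.leibniz, Derivation.map_aeval, D.leibniz_pow]
  simp only [smul_eq_mul, nsmul_eq_mul]
  ring

variable [CharZero k] [IsFF k K]

theorem exists_poly {t : K} (ht : Transcendental k t) (f : K) :
    ∃ G : k[X][X], E2 t f G = 0 ∧ E2 t f (derivative G) ≠ 0 := by
  classical
  have halg : Algebra.IsAlgebraic (Algebra.adjoin k (Set.range fun _ : Unit => t)) K :=
    (IsFF.basis ht).isAlgebraic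
  have hinj : Function.Injective (aeval t : k[X] →ₐ[k] K) := transcendental_iff_injective.1 ht
  -- a nonzero polynomial
  have hex : ∃ G : k[X][X], G ≠ 0 ∧ E2 t f G = 0 := by
    obtain ⟨p, hp0, hp⟩ := halg.isAlgebraic f
    have hsurj : ∀ a : Algebra.adjoin k (Set.range fun _ : Unit => t), ∃ q : k[X], aeval t q = (a : K) := by
      rintro ⟨a, ha⟩
      rw [Set.range_const, Algebra.adjoin_singleton_eq_range_aeval] at ha
      exact ha
    choose q hq using hsurj
    have hq0 : ∀ a, q a = 0 ↔ a = 0 := by
      intro a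
      constructor
      · intro h
        have := hq a
        rw [h, map_zero] at this
        exact Subtype.ext this.symm
      · rintro rfl
        apply hinj
        rw [hq 0, map_zero]; rfl
    refine ⟨∑ i ∈ p.support, monomial i (q (p.coeff i)), ?_, ?_⟩
    · obtain ⟨i, hi⟩ := (support_nonempty.2 hp0)
      intro h0
      have h1 := congrArg (fun r => coeff r i) h0
      simp only [finsetSum_coeff, coeff_monomial, coeff_zero, Finset.sum_ite_eq', hi, if_true] at h1
      rw [hq0] at h1
      exact (mem_support_iff.1 hi) h1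
    · rw [map_sum]
      rw [aeval_eq_sum_range, Finset.sum_range] at hp
      have h2 : aeval f p = ∑ i ∈ p.support, (p.coeff i : K) * f ^ i := by
        rw [aeval_def, eval₂_eq_sum, Polynomial.sum]
        rfl
      have h3 : ∑ i ∈ p.support, (p.coeff i : K) * f ^ i = 0 := by
        rw [← h2, aeval_eq_sum_range, Finset.sum_range]
        exact hp
      rw [← h3]
      refine Finset.sum_congr rfl fun i _ => ?_
      rw [E2_monomial, hq]
  -- minimal degree
  have hne : {n : ℕ | ∃ G : k[X][X], G ≠ 0 ∧ E2 t f G = 0 ∧ G.natDegree = n}.Nonempty := by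
    obtain ⟨G, h1, h2⟩ := hex
    exact ⟨_, G, h1, h2, rfl⟩
  obtain ⟨G, hG0, hG, hGn⟩ := Nat.sInf_mem hne
  refine ⟨G, hG, fun hd => ?_⟩
  have hpos : 0 < G.natDegree := by
    by_contra hcon
    have h1 : G.natDegree = 0 := by omega
    rw [eq_C_of_natDegree_eq_zero h1] at hG hG0
    have h2 : aeval t (G.coeff 0) = 0 := by
      rw [← hG, E2_apply, eval₂_C]; rfl
    have h3 : G.coeff 0 = 0 := hinj (by rw [h2, map_zero])
    apply hG0
    rw [h3, map_zero]
  have hd0 : derivative G ≠ 0 := by
    intro h0
    have := natDegree_eq_zero_of_derivative_eq_zero h0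
    omega
  have hlt : (derivative G).natDegree < G.natDegree := natDegree_derivative_lt hpos.ne'
  have := Nat.sInf_le (s := {n : ℕ | ∃ G : k[X][X], G ≠ 0 ∧ E2 t f G = 0 ∧ G.natDegree = n})
    ⟨derivative G, hd0, hd, rfl⟩
  omega

theorem ratio {t : K} (ht : Transcendental k t) (f : K) :
    ∃ c : K, ∀ D : Derivation k K K, D f = c * D t := by
  obtain ⟨G, hG, hG'⟩ := exists_poly ht f
  refine ⟨- E2 t f (dX G) / E2 t f (derivative G), fun D => ?_⟩
  have := chain D t f G
  rw [hG, map_zero] at this
  field_simp
  linear_combination -this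

end Pool.Agent.W603.LV
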