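import Pool.Agent.W603.LV.Spec
import Pool.Agent.W603.LV.Exc

/-! The degree bound for affine curves in varieties given by few monomials that are high powers. -/

set_option autoImplicit false

open FF MvPolynomial

namespace Pool.Agent.W603.LV

universe u v w

variable {k : Type u} [Field k] {n : ℕ} {ι : Type v} {K : Type w} [Field K] [Algebra k K]

/-- monomials with integral exponents -/
noncomputable def mon (y : Fin n → K) (q : Fin n → ℤ) : K := ∏ l, y l ^ q l

theorem mon_ne {y : Fin n → K} (hy : ∀ l, y l ≠ 0) (q : Fin n → ℤ) : mon y q ≠ 0 :=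
  Finset.prod_ne_zero_iff.2 fun l _ => zpow_ne_zero _ (hy l)

open Classical in
/-- constants for the height bound -/
noncomputable def cst (J0 : Finset (Fin n)) (Q : Finset (Fin n → ℤ)) (j : Fin n) : ℕ :=
  if h : ∃ (c : (Fin n → ℤ) → ℤ) (d : ℕ), 0 < d ∧ ∀ l, l ∉ J0 →
      ∑ q ∈ Q, c q * q l = if l = j then (d : ℤ) else 0
  then ∑ q ∈ Q, (h.choose q).natAbs else 0

variable [CharZero k] [IsFF k K] [IsAlgClosed k]

theorem hgt_le_cst {J0 : Finset (Fin n)} {Q : Finset (Fin n → ℤ)} {j : Fin n} (hj : j ∉ J0)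
    (h : ∃ (c : (Fin n → ℤ) → ℤ) (d : ℕ), 0 < d ∧ ∀ l, l ∉ J0 →
      ∑ q ∈ Q, c q * q l = if l = j then (d : ℤ) else 0)
    {y : Fin n → K} (hy : ∀ l, y l ≠ 0) (hy1 : ∀ l ∈ J0, y l = 1) {B : ℤ}
    (hB : ∀ q ∈ Q, hgt k (mon y q) ≤ B) : hgt k (y j) ≤ cst J0 Q j * B := by
  classical
  have hcst : cst J0 Q j = ∑ q ∈ Q, (h.choose q).natAbs := by
    unfold cst
    rw [dif_pos h]
  obtain ⟨d, hd, hc⟩ := h.choose_spec
  rw [hcst]
  generalize h.choose = c at hc
  have e : y j ^ d = ∏ q ∈ Q, mon y q ^ c q := by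
    unfold mon
    have h1 : ∏ q ∈ Q, (∏ l, y l ^ q l) ^ c q = ∏ l, y l ^ (∑ q ∈ Q, c q * q l) := by
      have h2 : ∀ q ∈ Q, (∏ l, y l ^ q l) ^ c q = ∏ l, y l ^ (c q * q l) := by
        intro q _
        rw [← Finset.prod_zpow]
        refine Finset.prod_congr rfl fun l _ => ?_
        rw [← zpow_mul, mul_comm]
      rw [Finset.prod_congr rfl h2, Finset.prod_comm]
      refine Finset.prod_congr rfl fun l _ => ?_
      have h3 : ∀ s : Finset (Fin n → ℤ), ∏ q ∈ s, y l ^ (c q * q l) =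
          y l ^ (∑ q ∈ s, c q * q l) := by
        intro s
        induction s using Finset.induction_on with
        | empty => simp
        | insert a s ha ih => rw [Finset.prod_insert ha, Finset.sum_insert ha, zpow_add₀ (hy l), ih]
      exact h3 Q
    rw [h1, Finset.prod_eq_single j]
    · rw [hc j hj, if_pos rfl, zpow_natCast]
    · intro l _ hl
      by_cases hl0 : l ∈ J0
      · rw [hy1 l hl0, one_zpow]
      · rw [hc l hl0, if_neg hl, zpow_zero]
    · intro h; exact absurd (Finset.mem_univ j) h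
  have h1 : hgt k (y j ^ d) ≤ ∑ q ∈ Q, hgt k (mon y q ^ c q) := by
    rw [e]
    exact hgt_prod_le _ _ fun q _ => zpow_ne_zero _ (mon_ne hy q)
  rw [hgt_pow (hy j)] at h1
  have h2 : ∑ q ∈ Q, hgt k (mon y q ^ c q) ≤ ∑ q ∈ Q, ((c q).natAbs : ℤ) * B := by
    refine Finset.sum_le_sum fun q hq => ?_
    rw [hgt_zpow (mon_ne hy q), Int.abs_eq_natAbs]
    exact mul_le_mul_of_nonneg_left (hB q hq) (by positivity)
  rw [← Finset.sum_mul] at h2
  have h3 : hgt k (y j) ≤ d * hgt k (y j) := by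
    have := hgt_nonneg (k := k) (y j)
    have hd1 : (1 : ℤ) ≤ d := by exact_mod_cast hd
    nlinarith
  rw [Nat.cast_sum]
  linarith

/-- One equation at a function field point. -/
theorem eq_blocks (S : Finset (Place k K)) (U : Finset (Fin n)) (F : MvPolynomial (Fin n) k)
    (T0 : Finset (Fin n →₀ ℕ)) (hFT : F.support ⊆ T0)
    {N : ℕ} (hN0 : 0 < N) (hN : (T0.card - 1) ^ 2 ≤ N)
    (hdiv : ∀ α ∈ T0, ∀ j, j ∉ U → N ∣ α j) (J0 : Finset (Fin n)) (f : Fin n → K)
    (hf0 : ∀ j ∈ J0, f j = 0) (hf1 : ∀ j, j ∉ J0 → f j ≠ 0)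
    (hfS : ∀ j ∈ U, ∀ P : Place k K, P ∉ S → P.ord (f j) = 0) (hrel : aeval f F = 0)
    (y : Fin n → K) (hy : ∀ l, y l = if l ∈ J0 then 1 else f l) :
    ∃ Q : Finset (Fin n → ℤ),
      Q ⊆ Finset.image₂ (fun α β : Fin n →₀ ℕ => fun l => (α l : ℤ) - β l) T0 T0 ∧
      (∀ q ∈ Q, hgt k (mon y q) ≤ T0.card *
        (N * tri T0.card * max (canDeg k K + S.card) 0)) ∧
      ∀ b : Fin n → ℤ, (∀ q ∈ Q, ∑ l, b l * q l = 0) → ∀ v : ℤ,
        aeval f (sub F (F.support.filter fun α => ∑ j, (α j : ℤ) * b j = v)) = 0 := by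
  classical
  have hy0 : ∀ l, y l ≠ 0 := by
    intro l
    rw [hy]
    split_ifs with h
    · exact one_ne_zero
    · exact hf1 l h
  set T : Finset (Fin n →₀ ℕ) := F.support.filter fun α => ∀ j ∈ J0, α j = 0 with hT
  have hTs : ∀ α ∈ T, α ∈ F.support := fun α hα => (Finset.mem_filter.1 hα).1
  have hT0 : ∀ α ∈ T, ∀ j ∈ J0, α j = 0 := fun α hα => (Finset.mem_filter.1 hα).2
  set t : (Fin n →₀ ℕ) → K := fun α => algebraMap k K (F.coeff α) * ∏ j, f j ^ α j with ht
  -- terms outside `T` vanish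
  have hvan : ∀ α ∈ F.support, α ∉ T → t α = 0 := by
    intro α hα hαT
    have h1 : ∃ j ∈ J0, α j ≠ 0 := by
      by_contra hcon
      push Not at hcon
      exact hαT (Finset.mem_filter.2 ⟨hα, hcon⟩)
    obtain ⟨j, hj, hαj⟩ := h1
    simp only [ht]
    rw [Finset.prod_eq_zero (Finset.mem_univ j), mul_zero]
    rw [hf0 j hj, zero_pow hαj]
  have hmonT : ∀ α ∈ T, ∏ j, f j ^ α j = mon y (fun l => (α l : ℤ)) := by
    intro α hα
    unfold mon
    refine Finset.prod_congr rfl fun j _ => ?_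
    rw [hy, zpow_natCast]
    split_ifs with h
    · rw [hT0 α hα j h, pow_zero, pow_zero]
    · rfl
  have ht0 : ∀ α ∈ T, t α ≠ 0 := by
    intro α hα
    refine mul_ne_zero ?_ ?_
    · rw [Ne, map_eq_zero]
      exact mem_support_iff.1 (hTs α hα)
    · rw [hmonT α hα]
      exact mon_ne hy0 _
  let g : T → K := fun α => t α
  have hg0 : ∀ α, g α ≠ 0 := fun α => ht0 α α.2
  have hsum : ∑ α, g α = 0 := by
    rw [Finset.sum_coe_sort T t, ← hrel, aeval_eq_sub]
    refine Finset.sum_subset (fun α hα => hTs α hα) fun α hα hαT => ?_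
    exact hvan α hα hαT
  have hordt : ∀ (P : Place k K), ∀ α ∈ T, P.ord (t α) = ∑ j, (α j : ℤ) * P.ord (y j) := by
    intro P α hα
    simp only [ht]
    rw [P.ord_mul (by rw [Ne, map_eq_zero]; exact mem_support_iff.1 (hTs α hα))
      (by rw [hmonT α hα]; exact mon_ne hy0 _), P.ord_const (mem_support_iff.1 (hTs α hα)),
      zero_add, hmonT α hα]
    unfold mon
    have h3 : ∀ s : Finset (Fin n), P.ord (∏ l ∈ s, y l ^ (α l : ℤ)) =
        ∑ l ∈ s, (α l : ℤ) * P.ord (y l) := by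
      intro s
      induction s using Finset.induction_on with
      | empty => simpa using P.ord_one
      | insert a s ha ih =>
        rw [Finset.prod_insert ha, Finset.sum_insert ha, P.ord_mul (zpow_ne_zero _ (hy0 a))
          (Finset.prod_ne_zero_iff.2 fun l _ => zpow_ne_zero _ (hy0 l)), ih, P.ord_zpow]
    exact h3 Finset.univ
  have hcard : Fintype.card T ≤ T0.card := by
    rw [Fintype.card_coe]
    exact (Finset.card_filter_le _ _).trans (Finset.card_le_card hFT)
  obtain ⟨R, hRe, hRh, hRs⟩ := blocks S hcard hN0 hN g hg0 hsum (by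
    intro P hP α β
    change (N : ℤ) ∣ P.ord (t α) - P.ord (t β)
    rw [hordt P α α.2, hordt P β β.2, ← Finset.sum_sub_distrib]
    refine Finset.dvd_sum fun j _ => ?_
    rw [← sub_mul]
    by_cases hj : j ∈ U
    · by_cases hj0 : j ∈ J0
      · rw [hy, if_pos hj0, P.ord_one, mul_zero]
        exact dvd_zero _
      · rw [hy, if_neg hj0, hfS j hj P hP, mul_zero]
        exact dvd_zero _
    · refine Dvd.dvd.mul_right (dvd_sub ?_ ?_) _
      · exact_mod_cast hdiv α (hFT (hTs α α.2)) j hj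
      · exact_mod_cast hdiv β (hFT (hTs β β.2)) j hj)
  refine ⟨((Finset.univ : Finset (T × T)).filter fun p => R p.1 p.2).image
    (fun p l => (p.1.1 l : ℤ) - p.2.1 l), ?_, ?_, ?_⟩
  · intro q hq
    rw [Finset.mem_image] at hq
    obtain ⟨p, -, rfl⟩ := hq
    rw [Finset.mem_image₂]
    exact ⟨p.1, hFT (hTs _ p.1.2), p.2, hFT (hTs _ p.2.2), rfl⟩
  · intro q hq
    rw [Finset.mem_image] at hq
    obtain ⟨p, hp, rfl⟩ := hq
    have h1 := hRh p.1 p.2 (Finset.mem_filter.1 hp).2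
    refine le_trans (le_of_eq ?_) h1
    refine hgt_congr fun P => ?_
    change _ = P.ord (t p.1 / t p.2)
    rw [P.ord_div (ht0 _ p.1.2) (ht0 _ p.2.2), hordt P _ p.1.2, hordt P _ p.2.2]
    unfold mon
    have h3 : ∀ s : Finset (Fin n), P.ord (∏ l ∈ s, y l ^ ((p.1.1 l : ℤ) - p.2.1 l)) =
        ∑ l ∈ s, ((p.1.1 l : ℤ) - p.2.1 l) * P.ord (y l) := by
      intro s
      induction s using Finset.induction_on with
      | empty => simpa using P.ord_one
      | insert a s ha ih =>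
        rw [Finset.prod_insert ha, Finset.sum_insert ha, P.ord_mul (zpow_ne_zero _ (hy0 a))
          (Finset.prod_ne_zero_iff.2 fun l _ => zpow_ne_zero _ (hy0 l)), ih, P.ord_zpow]
    rw [h3 Finset.univ, ← Finset.sum_sub_distrib]
    exact Finset.sum_congr rfl fun j _ => by ring
  · intro b hb v
    have hw : ∀ α β : T, R α β → ∑ j, ((α : Fin n →₀ ℕ) j : ℤ) * b j =
        ∑ j, ((β : Fin n →₀ ℕ) j : ℤ) * b j := by
      intro α β hαβ
      have h1 := hb (fun l => ((α : Fin n →₀ ℕ) l : ℤ) - (β : Fin n →₀ ℕ) l)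
        (Finset.mem_image.2 ⟨(α, β), by simp [hαβ], rfl⟩)
      rw [← sub_eq_zero, ← h1, ← Finset.sum_sub_distrib]
      exact Finset.sum_congr rfl fun j _ => by ring
    rw [aeval_sub]
    change ∑ α ∈ F.support.filter (fun α => ∑ j, (α j : ℤ) * b j = v), t α = 0
    set A : Finset T := Finset.univ.filter fun α : T => ∑ j, ((α : Fin n →₀ ℕ) j : ℤ) * b j = v
      with hA
    have h1 : ∑ α ∈ F.support.filter (fun α => ∑ j, (α j : ℤ) * b j = v), t α = ∑ α ∈ A, g α := by
      rw [hA, Finset.sum_filter, Finset.sum_filter]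
      change _ = ∑ a : T, (if ∑ j, ((a : Fin n →₀ ℕ) j : ℤ) * b j = v then t a else 0)
      rw [Finset.sum_coe_sort T (fun a => if ∑ j, (a j : ℤ) * b j = v then t a else 0)]
      symm
      refine Finset.sum_subset (fun α hα => hTs α hα) fun α hα hαT => ?_
      rw [hvan α hα hαT, ite_self]
    rw [h1]
    let σ : Setoid T := ⟨R, hRe⟩
    rw [← Finset.sum_fiberwise_of_maps_to (s := A) (t := A.image (Quotient.mk σ))
      (g := Quotient.mk σ) (fun α hα => Finset.mem_image_of_mem _ hα)]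
    refine Finset.sum_eq_zero fun c hc => ?_
    rw [Finset.mem_image] at hc
    obtain ⟨α0, hα0, rfl⟩ := hc
    refine hRs α0 _ fun β => ?_
    rw [Finset.mem_filter]
    constructor
    · rintro ⟨-, h⟩
      exact hRe.symm (Quotient.exact h)
    · intro h
      refine ⟨?_, Quotient.sound (hRe.symm h)⟩
      rw [hA, Finset.mem_filter] at hα0 ⊢
      exact ⟨Finset.mem_univ _, by rw [← hw α0 β h]; exact hα0.2⟩

end Pool.Agent.W603.LV
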