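import Pool.Agent.Helper386.D5V.Helper386_FF_RR

/-! Order estimates at a place of a function field, and approximation by polynomials in a
uniformizer. -/

set_option autoImplicit false

open Polynomial FF

namespace Pool.Agent.W603.LV

variable {k K : Type*} [Field k] [Field K] [Algebra k K]

/-- `f` vanishes to order at least `N` at `P`. -/
def Ge (P : Place k K) (N : ℤ) (f : K) : Prop := f = 0 ∨ N ≤ P.ord f

namespace Ge

variable {P : Place k K} {N M : ℤ} {f g : K}

theorem zero : Ge P N 0 := Or.inl rfl

theorem mono (h : M ≤ N) (hf : Ge P N f) : Ge P M f := by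
  rcases hf with hf | hf
  · exact Or.inl hf
  · exact Or.inr (h.trans hf)

theorem add (hf : Ge P N f) (hg : Ge P N g) : Ge P N (f + g) := by
  by_cases h1 : f = 0
  · rwa [h1, zero_add]
  by_cases h2 : g = 0
  · rwa [h2, add_zero]
  by_cases h3 : f + g = 0
  · exact Or.inl h3
  · right
    exact (le_min (hf.resolve_left h1) (hg.resolve_left h2)).trans (P.ord_add h1 h2 h3)

theorem neg (hf : Ge P N f) : Ge P N (-f) := by
  rcases hf with rfl | hf
  · left; simp
  · right; rwa [P.ord_neg]

theorem sub (hf : Ge P N f) (hg : Ge P N g) : Ge P N (f - g) := by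
  rw [sub_eq_add_neg]; exact hf.add hg.neg

theorem mul (hf : Ge P N f) (hg : Ge P M g) : Ge P (N + M) (f * g) := by
  by_cases h1 : f = 0
  · left; simp [h1]
  by_cases h2 : g = 0
  · left; simp [h2]
  right
  rw [P.ord_mul h1 h2]
  exact add_le_add (hf.resolve_left h1) (hg.resolve_left h2)

theorem const (c : k) : Ge P 0 (algebraMap k K c) := P.reg_const c

theorem one : Ge P 0 (1 : K) := P.reg_one

theorem natCast (n : ℕ) : Ge P 0 (n : K) := by
  have := Ge.const (P := P) (n : k)
  rwa [map_natCast] at this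

theorem intCast (n : ℤ) : Ge P 0 (n : K) := by
  have := Ge.const (P := P) (n : k)
  rwa [map_intCast] at this

theorem pow (hf : Ge P N f) (n : ℕ) : Ge P (n * N) (f ^ n) := by
  induction n with
  | zero => simpa using Ge.one (P := P)
  | succ n ih =>
    rw [pow_succ]
    have := ih.mul hf
    convert this using 1
    push_cast; ring

theorem sum {ι : Type*} (s : Finset ι) (F : ι → K) (h : ∀ i ∈ s, Ge P N (F i)) :
    Ge P N (∑ i ∈ s, F i) := by
  classical
  induction s using Finset.induction_on with
  | empty => simpa using Ge.zero (P := P)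
  | insert a s ha ih =>
    rw [Finset.sum_insert ha]
    exact (h a (Finset.mem_insert_self a s)).add (ih fun i hi => h i (Finset.mem_insert_of_mem hi))

theorem prod {ι : Type*} (s : Finset ι) (F : ι → K) (n : ι → ℤ) (h : ∀ i ∈ s, Ge P (n i) (F i)) :
    Ge P (∑ i ∈ s, n i) (∏ i ∈ s, F i) := by
  classical
  induction s using Finset.induction_on with
  | empty => simpa using Ge.one (P := P)
  | insert a s ha ih =>
    rw [Finset.prod_insert ha, Finset.sum_insert ha]
    exact (h a (Finset.mem_insert_self a s)).mul (ih fun i hi => h i (Finset.mem_insert_of_mem hi))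

theorem of_mul {h : K} (h0 : h ≠ 0) (hf : Ge P N (h * f)) : Ge P (N - P.ord h) f := by
  rcases hf with hf | hf
  · left; exact (mul_eq_zero.1 hf).resolve_left h0
  · by_cases h1 : f = 0
    · exact Or.inl h1
    · right
      rw [P.ord_mul h0 h1] at hf; omega

theorem of_mul' {h : K} {m : ℤ} (h0 : h ≠ 0) (hm : P.ord h = m) (hf : Ge P (N + m) (h * f)) :
    Ge P N f := by
  have := of_mul h0 hf
  rw [hm] at this
  simpa using this

end Ge

section approx

variable [IsAlgClosed k] [CharZero k] [IsFF k K] (P : Place k K)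

theorem exists_const {f : K} (hf : Ge P 0 f) : ∃ c : k, Ge P 1 (f - algebraMap k K c) := by
  have h1 : Function.Surjective (algebraMap k P.RF) :=
    (IsAlgClosed.algebraMap_bijective_of_isIntegral (k := k) (K := P.RF)).2
  obtain ⟨c, hc⟩ := h1 (P.red f)
  refine ⟨c, ?_⟩
  rw [P.algebraMap_RF] at hc
  have h2 : P.red (f - algebraMap k K c) = 0 := by
    rw [P.red_sub hf (P.reg_const c), hc, sub_self]
  have h3 : P.Reg (f - algebraMap k K c) := Ge.sub (N := 0) hf (Ge.const c)
  rcases (P.red_eq_zero_iff h3).1 h2 with h | h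
  · exact Or.inl h
  · exact Or.inr h

theorem approx {π : K} (hπ : P.ord π = 1) {f : K} (hf : Ge P 0 f) (N : ℕ) :
    ∃ p : k[X], Ge P N (f - aeval π p) := by
  have hπ0 : π ≠ 0 := by
    rintro rfl
    rw [P.ord_zero] at hπ; omega
  induction N with
  | zero => exact ⟨0, by simpa using hf⟩
  | succ N ih =>
    obtain ⟨p, hp⟩ := ih
    have h1 : Ge P 0 ((f - aeval π p) / π ^ N) := by
      apply Ge.of_mul' (h := π ^ N) (m := N) (pow_ne_zero _ hπ0)
      · rw [P.ord_pow, hπ, mul_one]
      · rw [mul_div_cancel₀ _ (pow_ne_zero _ hπ0)]; simpa using hp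
    obtain ⟨c, hc⟩ := exists_const P h1
    refine ⟨p + C c * X ^ N, ?_⟩
    have h2 : Ge P (N : ℤ) (π ^ N) := by
      right; rw [P.ord_pow, hπ, mul_one]
    have h3 := h2.mul hc
    have e : π ^ N * ((f - aeval π p) / π ^ N - algebraMap k K c) =
        f - aeval π (p + C c * X ^ N) := by
      rw [map_add, map_mul, aeval_C, map_pow, aeval_X]
      field_simp
      ring
    rw [e] at h3
    simpa using h3

omit [IsAlgClosed k] [CharZero k] [IsFF k K] in
theorem ge_aeval {π : K} (hπ : Ge P 0 π) (p : k[X]) : Ge P 0 (aeval π p) := by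
  rw [aeval_eq_sum_range]
  refine Ge.sum _ _ fun i _ => ?_
  rw [Algebra.smul_def]
  have := (Ge.const (P := P) (p.coeff i)).mul (hπ.pow i)
  simpa using this

omit [IsAlgClosed k] [CharZero k] [IsFF k K] in
theorem X_pow_dvd {π : K} (hπ : P.ord π = 1) (M : ℕ) :
    ∀ g : k[X], Ge P M (aeval π g) → X ^ M ∣ g := by
  have hπ0 : π ≠ 0 := by
    rintro rfl
    rw [P.ord_zero] at hπ; omega
  induction M with
  | zero => intro g _; simp
  | succ M ih =>
    intro g hg
    obtain ⟨h, rfl⟩ := ih g (hg.mono (by push_cast; omega))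
    rw [map_mul, map_pow, aeval_X] at hg
    have h1 : Ge P 1 (aeval π h) := by
      apply Ge.of_mul' (h := π ^ M) (m := M) (pow_ne_zero _ hπ0)
      · rw [P.ord_pow, hπ, mul_one]
      · convert hg using 1; push_cast; ring
    have h2 : X ∣ h := by
      rw [X_dvd_iff]
      by_contra hc
      have h3 : h = X * h.divX + C (h.coeff 0) := by
        rw [X_mul_divX_add]
      have h4 : Ge P 1 (algebraMap k K (h.coeff 0)) := by
        have e : algebraMap k K (h.coeff 0) = aeval π h - π * aeval π h.divX := by
          have h4 := congrArg (aeval π) h3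
          rw [map_add, map_mul, aeval_X, aeval_C] at h4
          rw [h4]; ring
        rw [e]
        refine h1.sub ?_
        have h5 : Ge P 1 π := Or.inr hπ.ge
        have h6 : Ge P 0 (aeval π h.divX) := by
          rw [aeval_eq_sum_range]
          refine Ge.sum _ _ fun i _ => ?_
          rw [Algebra.smul_def]
          have := (Ge.const (P := P) (h.divX.coeff i)).mul ((h5.mono (by norm_num : (0 : ℤ) ≤ 1)).pow i)
          simpa using this
        simpa using h5.mul h6
      rcases h4 with h4 | h4
      · exact hc ((map_eq_zero _).1 h4)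
      · rw [P.ord_const hc] at h4; omega
    obtain ⟨h', rfl⟩ := h2
    exact ⟨h', by ring⟩

omit [IsAlgClosed k] [CharZero k] [IsFF k K] in
theorem ge_derivative {π : K} (hπ : P.ord π = 1) (M : ℕ) (g : k[X])
    (hg : Ge P (M + 1 : ℕ) (aeval π g)) : Ge P M (aeval π (derivative g)) := by
  obtain ⟨h, rfl⟩ := X_pow_dvd P hπ _ g hg
  have h5 : Ge P 1 π := Or.inr hπ.ge
  rw [derivative_mul, derivative_X_pow]
  simp only [map_add, map_mul, map_pow, aeval_X, aeval_C, Nat.add_sub_cancel]
  have h6 := ge_aeval P (h5.mono (by norm_num : (0 : ℤ) ≤ 1)) h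
  have h7 := ge_aeval P (h5.mono (by norm_num : (0 : ℤ) ≤ 1)) (derivative h)
  refine Ge.add ?_ ?_
  · have := ((Ge.const (P := P) (((M + 1 : ℕ) : k))).mul (h5.pow M)).mul h6
    simpa using this
  · have := (h5.pow (M + 1)).mul h7
    exact this.mono (by push_cast; linarith)

end approx

end Pool.Agent.W603.LV
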